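import Mathlib
import Pool.Agent.Lib.MP_12eaff_co.BK.Defs2

set_option autoImplicit false

namespace Pool.Agent.Lib.MP_12eaff_co.BK3

open Finset Pool.Agent.Lib.MP_12eaff_co.BK
open scoped Classical

variable {V : Type} [Fintype V]

/-- Data of the recolouring argument; the size `p` and the limit `L` depend on the group. -/
structure Sys (V : Type) where
  G : SimpleGraph V
  D : ℕ
  p : V → ℕ
  L : V → ℕ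
  P : Finset V
  gr : V → Finset V
  E : V → Finset V

namespace Sys

variable (S : Sys V)

/-- Some end of `w` has colour `γ`. -/
def sees (c : V → ℕ) (w : V) (γ : ℕ) : Prop := ∃ x ∈ S.E w, c x = γ

/-- The two ends of `w` have colours `γ` and `ζ`. -/
def cls (c : V → ℕ) (w : V) (γ ζ : ℕ) : Prop :=
  ∃ x ∈ S.E w, ∃ y ∈ S.E w, x ≠ y ∧ c x = γ ∧ c y = ζ

noncomputable def sC (c : V → ℕ) (g : Finset V) (γ : ℕ) : ℕ :=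
  (g.filter (fun w => S.sees c w γ)).card

noncomputable def cC (c : V → ℕ) (g : Finset V) (γ ζ : ℕ) : ℕ :=
  (g.filter (fun w => S.cls c w γ ζ)).card

/-- Number of members with two ends. -/
noncomputable def dE (g : Finset V) : ℕ := (g.filter (fun a => 2 ≤ (S.E a).card)).card

/-- Admissible colourings. -/
structure Valid (c : V → ℕ) : Prop where
  unc : ∀ w ∈ S.P, ¬ c w < S.D
  prop : PCol S.G S.D c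
  star : ∀ w ∈ S.P, ∀ γ < S.D, S.sC c (S.gr w) γ + 1 ≤ S.p w
  cl : ∀ w ∈ S.P, ∀ γ < S.D, ∀ ζ < S.D, S.cC c (S.gr w) γ ζ ≤ S.L w

/-- What the static part of the proof provides. -/
structure OK : Prop where
  deg : ∀ v, (nb S.G v).card ≤ S.D + 1
  mem : ∀ w ∈ S.P, w ∈ S.gr w
  sub : ∀ w ∈ S.P, S.gr w ⊆ S.P
  eqv : ∀ w ∈ S.P, ∀ w' ∈ S.gr w, S.gr w' = S.gr w
  card : ∀ w ∈ S.P, (S.gr w).card = S.p w
  Leq : ∀ w ∈ S.P, ∀ w' ∈ S.gr w, S.L w' = S.L w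
  Eadj : ∀ w ∈ S.P, ∀ x ∈ S.E w, S.G.Adj w x
  Ecard : ∀ w ∈ S.P, (S.E w).card ≤ 2
  EP : ∀ w ∈ S.P, ∀ x ∈ S.E w, x ∉ S.P
  Edisj : ∀ w ∈ S.P, ∀ w' ∈ S.gr w, w' ≠ w → ∀ x ∈ S.E w, x ∉ S.E w'
  hole : ∀ c, S.Valid c → ∃ v, v ∉ S.P ∧ ¬ c v < S.D

/-- Numerical conditions on the groups. -/
structure Num : Prop where
  h1 : ∀ w ∈ S.P, S.L w + 4 ≤ S.p w ∨ S.dE (S.gr w) + 4 ≤ S.p w
  h2 : ∀ w ∈ S.P, S.p w + 3 ≤ 2 * S.L w ∨ S.dE (S.gr w) + 4 ≤ 2 * S.L w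
  h3 : ∀ w ∈ S.P, 4 ≤ S.L w
  h4 : ∀ w ∈ S.P, 7 * ∑ a ∈ S.gr w, (S.E a).card ≤ 22 * S.L w

/-- A vertex is next to three members of a group, or has few attached neighbours. -/
def P4n (k : ℕ) : Prop :=
  ∀ z, z ∉ S.P → (∃ T : Finset V, T ⊆ S.P ∧ 3 ≤ T.card ∧ ∀ w ∈ T, S.G.Adj z w ∧ z ∉ S.E w) ∨
    (∀ Q, IsClq S.G Q → k ≤ Q.card → (∀ a ∈ Q, S.G.Adj z a) →
      (Jset S.G (k - 3) z).card + 2 ≤ S.D)

end Sys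

/-- Extension of a total admissible colouring to the deleted and the invisible vertices. -/
def ExtSt (G : SimpleGraph V) (S : Sys V) (Del : Finset V) (Kf : V → Finset V) : Prop :=
  (∀ v, (nb G v).card ≤ S.D + 1) → (∀ u v, S.G.Adj u v ↔ G.Adj u v ∧ u ∉ Del ∧ v ∉ Del) →
  (∀ w ∈ S.P, w ∈ S.gr w) → (∀ w ∈ S.P, S.gr w ⊆ S.P) →
  (∀ w ∈ S.P, ∀ w' ∈ S.gr w, S.gr w' = S.gr w) → (∀ w ∈ S.P, (S.gr w).card = S.p w) →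
  (∀ w ∈ S.P, 4 ≤ S.p w) →
  (∀ w ∈ S.P, S.E w = (nb G w \ Kf w) \ Del) →
  (∀ w ∈ S.P, (nb G w \ Kf w).card ≤ 2) → (∀ w ∈ S.P, ∀ x ∈ nb G w \ Kf w, x ∉ S.P) →
  (∀ w ∈ S.P, ∀ w' ∈ S.gr w, w' ≠ w → ∀ x ∈ nb G w \ Kf w, x ∉ nb G w' \ Kf w') →
  (∀ w ∈ S.P, (Kf w).card = S.D) → (∀ w ∈ S.P, S.gr w ⊆ Kf w) →
  (∀ w ∈ S.P, ∀ w' ∈ S.gr w, Kf w' = Kf w) →
  (∀ w ∈ S.P, ∀ x ∈ Kf w, x ∈ S.P → x ∈ S.gr w) →
  (∀ a ∈ Del, a ∉ S.P ∧ ∃ w ∈ S.P, a ∈ Kf w ∧ (nb G a \ Kf w).card ≤ 2) →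
  ∀ c, S.Valid c → (∀ w ∈ S.P, ∀ γ < S.D, ∀ ζ < S.D, S.cC c (S.gr w) γ ζ + 2 ≤ S.p w) →
    (∀ v, v ∉ S.P → c v < S.D) → Colr G S.D

/-- Selection of the invisible vertices. -/
def SelSt (D k : ℕ) : Prop := ∃ S : Sys V, S.D = D ∧ S.OK ∧ S.Num ∧ S.P4n k

end Pool.Agent.Lib.MP_12eaff_co.BK3
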