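import Mathlib
import Pool.Agent.Lib.MP_12eaff_co.BK3.D3

set_option autoImplicit false
set_option linter.unusedSectionVars false
set_option linter.unusedVariables false

namespace Pool.Agent.Lib.MP_12eaff_co.BK3

open Finset Pool.Agent.Lib.MP_12eaff_co.BK
open scoped Classical

variable {V : Type} [Fintype V]

namespace Sys

variable (S : Sys V)

/-- Colour `γ` at the end `u` of `w` would make `w` a new member among at least `T` that see `γ`. -/
def BlkS (T : ℕ) (c : V → ℕ) (u w : V) (γ : ℕ) : Prop :=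
  (∀ x ∈ S.E w, x ≠ u → c x ≠ γ) ∧ T ≤ S.sC c ((S.gr w).erase w) γ

/-- Colour `γ` at the end `u` of `w` would put `w` into a class with at least `T` other members. -/
def BlkC (T : ℕ) (c : V → ℕ) (u w : V) (γ : ℕ) : Prop :=
  ∃ x ∈ S.E w, x ≠ u ∧ c x < S.D ∧ T ≤ S.cC c ((S.gr w).erase w) γ (c x)

def NB (c : V → ℕ) (u w : V) (γ : ℕ) : Prop :=
  w ∈ S.P ∧ u ∈ S.E w ∧ (S.BlkS (S.p w - 2) c u w γ ∨ S.BlkC (S.L w - 2) c u w γ)

def HB (c : V → ℕ) (u w : V) (γ : ℕ) : Prop :=
  w ∈ S.P ∧ u ∈ S.E w ∧ (S.BlkS (S.p w - 1) c u w γ ∨ S.BlkC (S.L w) c u w γ)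

def VC (c : V → ℕ) (u e : V) (γ : ℕ) : Prop :=
  S.G.Adj u e ∧ γ < S.D ∧ (c e = γ ∨ S.NB c u e γ)

def Uq (c : V → ℕ) (u e : V) (γ : ℕ) : Prop := S.VC c u e γ ∧ ∀ e', S.VC c u e' γ → e' = e

def Head (c : V → ℕ) (u w : V) (γ : ℕ) (z : V) : Prop :=
  ∃ w2 ∈ S.gr w, w2 ≠ w ∧ z ∈ S.E w2 ∧ c z = γ ∧
    (∀ x ∈ S.E w, x ≠ u → c x < S.D → S.L w - 2 ≤ S.cC c ((S.gr w).erase w) γ (c x) →
      ∃ y ∈ S.E w2, y ≠ z ∧ c y = c x) ∧
    (¬ S.BlkC (S.L w - 2) c u w γ → ∀ y ∈ S.E w2, y ≠ z → c y ≠ γ)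

noncomputable def holes (c : V → ℕ) : ℕ := (univ.filter (fun v => ¬ c v < S.D)).card

structure Mono (c c' : V → ℕ) : Prop where
  star : ∀ w ∈ S.P, ∀ γ < S.D,
    S.sC c' (S.gr w) γ ≤ S.sC c (S.gr w) γ ∨ S.sC c' (S.gr w) γ + 2 ≤ S.p w
  cl : ∀ w ∈ S.P, ∀ γ < S.D, ∀ ζ < S.D,
    S.cC c' (S.gr w) γ ζ ≤ S.cC c (S.gr w) γ ζ ∨ S.cC c' (S.gr w) γ ζ + 2 ≤ S.L w

noncomputable def NU (c : V → ℕ) (u : V) : Finset V :=
  (nb S.G u).filter (fun e => ¬ ∃ γ, S.Uq c u e γ)

/-- `c` is admissible with the least number of uncoloured vertices. -/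
structure Min (c : V → ℕ) : Prop where
  val : S.Valid c
  min : ∀ c', S.Valid c' → S.holes c ≤ S.holes c'

variable {S}

omit [Fintype V] in
theorem two_ends {A : Finset V} (h : A.card ≤ 2) {x y a : V} (hx : x ∈ A) (hy : y ∈ A)
    (hxy : x ≠ y) (ha : a ∈ A) : a = x ∨ a = y := by
  by_contra hc
  push Not at hc
  have : ({a, x, y} : Finset V) ⊆ A := by
    intro t ht
    simp only [mem_insert, mem_singleton] at ht
    rcases ht with rfl | rfl | rfl <;> assumption
  have h2 := card_le_card this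
  rw [card_insert_of_notMem (by simp [hc.1, hc.2]), card_pair hxy] at h2
  omega

omit [Fintype V] in
theorem cls_symm {c : V → ℕ} {w : V} {γ ζ : ℕ} (h : S.cls c w γ ζ) : S.cls c w ζ γ := by
  obtain ⟨x, hx, y, hy, h1, h2, h3⟩ := h
  exact ⟨y, hy, x, hx, h1.symm, h3, h2⟩

omit [Fintype V] in
theorem cC_symm (c : V → ℕ) (g : Finset V) (γ ζ : ℕ) : S.cC c g γ ζ = S.cC c g ζ γ := by
  unfold cC
  congr 1
  ext w
  simp only [mem_filter]
  exact ⟨fun h => ⟨h.1, cls_symm h.2⟩, fun h => ⟨h.1, cls_symm h.2⟩⟩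

omit [Fintype V] in
theorem cls_sees {c : V → ℕ} {w : V} {γ ζ δ : ℕ} (hE : (S.E w).card ≤ 2) (h : S.cls c w γ ζ)
    (hs : S.sees c w δ) : δ = γ ∨ δ = ζ := by
  obtain ⟨x, hx, y, hy, h1, h2, h3⟩ := h
  obtain ⟨a, ha, h4⟩ := hs
  rcases two_ends hE hx hy h1 ha with rfl | rfl
  · exact Or.inl (h4.symm.trans h2)
  · exact Or.inr (h4.symm.trans h3)

omit [Fintype V] in
theorem cls_eq {c : V → ℕ} {w : V} {γ ζ γ' ζ' : ℕ} (hE : (S.E w).card ≤ 2) (h : S.cls c w γ ζ)
    (h' : S.cls c w γ' ζ') : (γ' = γ ∧ ζ' = ζ) ∨ (γ' = ζ ∧ ζ' = γ) := by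
  obtain ⟨x, hx, y, hy, h1, h2, h3⟩ := h
  obtain ⟨a, ha, b, hb, h4, h5, h6⟩ := h'
  rcases two_ends hE hx hy h1 ha with rfl | rfl <;> rcases two_ends hE hx hy h1 hb with rfl | rfl
  · exact absurd rfl h4
  · exact Or.inl ⟨h5.symm.trans h2, h6.symm.trans h3⟩
  · exact Or.inr ⟨h5.symm.trans h3, h6.symm.trans h2⟩
  · exact absurd rfl h4

omit [Fintype V] in
theorem sees_two {c : V → ℕ} {w : V} {γ γ' : ℕ} (h : S.sees c w γ) (h' : S.sees c w γ')
    (hne : γ ≠ γ') : S.cls c w γ γ' := by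
  obtain ⟨x, hx, h1⟩ := h
  obtain ⟨y, hy, h2⟩ := h'
  exact ⟨x, hx, y, hy, fun e => hne (by rw [← h1, ← h2, e]), h1, h2⟩

omit [Fintype V] in
theorem filt_add {g : Finset V} {p q r : V → Prop} [DecidablePred p] [DecidablePred q]
    [DecidablePred r] (h : ∀ w ∈ g, p w → q w → r w) :
    (g.filter p).card + (g.filter q).card ≤ g.card + (g.filter r).card := by
  have h1 := card_union_add_card_inter (g.filter p) (g.filter q)
  have h2 : (g.filter p ∪ g.filter q).card ≤ g.card :=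
    card_le_card (union_subset (filter_subset _ _) (filter_subset _ _))
  have h3 : (g.filter p ∩ g.filter q).card ≤ (g.filter r).card := by
    refine card_le_card (fun w hw => ?_)
    simp only [mem_inter, mem_filter] at hw ⊢
    exact ⟨hw.1.1, h w hw.1.1 hw.1.2 hw.2.2⟩
  omega

omit [Fintype V] in
theorem filt_disj {g : Finset V} {p q : V → Prop} [DecidablePred p] [DecidablePred q]
    (h : ∀ w ∈ g, p w → q w → False) :
    (g.filter p).card + (g.filter q).card ≤ g.card := by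
  have := filt_add (g := g) (p := p) (q := q) (r := fun _ => False) h
  simpa using this

omit [Fintype V] in
theorem filt_erase_le (g : Finset V) (w : V) (p : V → Prop) [DecidablePred p] :
    ((g.erase w).filter p).card ≤ (g.filter p).card :=
  card_le_card (filter_subset_filter _ (erase_subset _ _))

omit [Fintype V] in
theorem filt_le_erase {g : Finset V} {w : V} {p q : V → Prop} [DecidablePred p] [DecidablePred q]
    (h : ∀ a ∈ g, a ≠ w → p a → q a) : (g.filter p).card ≤ ((g.erase w).filter q).card + 1 := by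
  have : g.filter p ⊆ insert w ((g.erase w).filter q) := by
    intro a ha
    by_cases e : a = w
    · rw [e]; exact mem_insert_self _ _
    · have := mem_filter.mp ha
      exact mem_insert_of_mem (mem_filter.mpr ⟨mem_erase.mpr ⟨e, this.1⟩, h a this.1 e this.2⟩)
  exact le_trans (card_le_card this) (card_insert_le _ _)

omit [Fintype V] in
theorem filt_erase_add {g : Finset V} {w : V} {p : V → Prop} [DecidablePred p] (hw : w ∈ g) (hp : p w) :
    (g.filter p).card = ((g.erase w).filter p).card + 1 := by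
  have : g.filter p = insert w ((g.erase w).filter p) := by
    ext a
    simp only [mem_filter, mem_insert, mem_erase]
    constructor
    · intro h
      by_cases e : a = w
      · exact Or.inl e
      · exact Or.inr ⟨⟨e, h.1⟩, h.2⟩
    · rintro (rfl | h)
      · exact ⟨hw, hp⟩
      · exact ⟨h.1.2, h.2⟩
  rw [this, card_insert_of_notMem (by simp)]

omit [Fintype V] in
theorem filt_erase_eq {g : Finset V} {w : V} {p : V → Prop} [DecidablePred p] (hp : ¬ p w) :
    (g.filter p).card = ((g.erase w).filter p).card := by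
  congr 1
  ext a
  simp only [mem_filter, mem_erase]
  exact ⟨fun h => ⟨⟨fun e => hp (e ▸ h.2), h.1⟩, h.2⟩, fun h => ⟨h.1.2, h.2⟩⟩

omit [Fintype V] in
theorem filt_mono {g : Finset V} {p q : V → Prop} [DecidablePred p] [DecidablePred q]
    (h : ∀ a ∈ g, p a → q a) :
    (g.filter p).card ≤ (g.filter q).card :=
  card_le_card (fun a ha => by
    have := mem_filter.mp ha
    exact mem_filter.mpr ⟨this.1, h a this.1 this.2⟩)

omit [Fintype V] in
theorem filt_lt {g : Finset V} {p q : V → Prop} [DecidablePred p] [DecidablePred q]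
    (h : ∀ a ∈ g, p a → q a) {b : V} (hb : b ∈ g)
    (h1 : q b) (h2 : ¬ p b) : (g.filter p).card + 1 ≤ (g.filter q).card := by
  rw [filt_erase_add hb h1, filt_erase_eq h2]
  have := filt_mono (g := g.erase b) (p := p) (q := q) (fun a ha => h a (mem_of_mem_erase ha))
  omega

theorem card_er (ok : S.OK) {w : V} (hw : w ∈ S.P) : ((S.gr w).erase w).card + 1 = S.p w := by
  rw [card_erase_add_one (ok.mem w hw), ok.card w hw]

theorem peq (ok : S.OK) {w w' : V} (hw : w ∈ S.P) (h : w' ∈ S.gr w) : S.p w' = S.p w := by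
  rw [← ok.card w hw, ← ok.card w' (ok.sub w hw h), ok.eqv w hw w' h]

omit [Fintype V] in
theorem cls_two {c : V → ℕ} {w : V} {γ ζ : ℕ} (h : S.cls c w γ ζ) : 2 ≤ (S.E w).card := by
  obtain ⟨x, hx, y, hy, h1, _⟩ := h
  exact one_lt_card.mpr ⟨x, hx, y, hy, h1⟩

omit [Fintype V] in
theorem cC_dE (c : V → ℕ) (g : Finset V) (γ ζ : ℕ) : S.cC c g γ ζ ≤ S.dE g :=
  filt_mono (fun _ _ h => cls_two h)

omit [Fintype V] in
theorem cC2_dE {c : V → ℕ} {g : Finset V} {γ ζ γ' ζ' : ℕ}
    (h : ∀ a ∈ g, S.cls c a γ ζ → S.cls c a γ' ζ' → False) :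
    S.cC c g γ ζ + S.cC c g γ' ζ' ≤ S.dE g := by
  have := filt_disj (g := g.filter (fun a => 2 ≤ (S.E a).card)) (p := fun a => S.cls c a γ ζ)
    (q := fun a => S.cls c a γ' ζ') (fun a ha => h a (mem_filter.mp ha).1)
  have k : ∀ δ ε, S.cC c g δ ε ≤
      ((g.filter (fun a => 2 ≤ (S.E a).card)).filter (fun a => S.cls c a δ ε)).card :=
    fun δ ε => card_le_card (fun t ht => mem_filter.mpr ⟨mem_filter.mpr
      ⟨(mem_filter.mp ht).1, cls_two (mem_filter.mp ht).2⟩, (mem_filter.mp ht).2⟩)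
  have := k γ ζ
  have := k γ' ζ'
  unfold dE
  omega

omit [Fintype V] in
theorem dE_erase (g : Finset V) (w : V) : S.dE (g.erase w) ≤ S.dE g := filt_erase_le _ _ _

omit [Fintype V] in
theorem Num.p4 (num : S.Num) {w : V} (hw : w ∈ S.P) : 4 ≤ S.p w ∧ 4 ≤ S.L w := by
  have := num.h1 w hw
  have := num.h3 w hw
  omega

omit [Fintype V] in
theorem Num.cap (num : S.Num) {w : V} (hw : w ∈ S.P) (c : V → ℕ) (γ ζ : ℕ) :
    S.L w + 4 ≤ S.p w ∨ S.cC c (S.gr w) γ ζ + 4 ≤ S.p w := by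
  have := num.h1 w hw
  have := cC_dE (S := S) c (S.gr w) γ ζ
  omega

theorem HB.nb {c : V → ℕ} {u w : V} {γ : ℕ} (h : S.HB c u w γ) : S.NB c u w γ := by
  obtain ⟨h1, h2, h3⟩ := h
  refine ⟨h1, h2, ?_⟩
  rcases h3 with h3 | ⟨x, a1, a2, a3, a4⟩
  · exact Or.inl ⟨h3.1, le_trans (by omega) h3.2⟩
  · exact Or.inr ⟨x, a1, a2, a3, le_trans (by omega) a4⟩

theorem NB_single (ok : S.OK) (num : S.Num) {c : V → ℕ} (hv : S.Valid c) {u w : V} {γ γ' : ℕ}
    (hγ : γ < S.D) (hγ' : γ' < S.D) (h : S.NB c u w γ) (h' : S.NB c u w γ') : γ = γ' := by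
  by_contra hne
  have hw := h.1
  have n1 := num.p4 hw
  have n2 := num.h2 w hw
  have hc := card_er ok hw
  have hE : ∀ a ∈ (S.gr w).erase w, (S.E a).card ≤ 2 :=
    fun a ha => ok.Ecard a (ok.sub w hw (mem_of_mem_erase ha))
  have sc : ∀ {γ γ' : ℕ}, γ ≠ γ' → S.BlkS (S.p w - 2) c u w γ → S.BlkC (S.L w - 2) c u w γ' → False := by
    intro γ γ' hne a ⟨x, b1, b2, b3, b4⟩
    have := filt_disj (g := (S.gr w).erase w) (p := fun a => S.sees c a γ)
      (q := fun a => S.cls c a γ' (c x)) (fun t ht p q => by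
        rcases cls_sees (hE t ht) q p with e | e
        · exact hne e
        · exact a.1 x b1 b2 e.symm)
    have a2 := a.2
    unfold sC at a2
    unfold cC at b4
    omega
  rcases h.2.2 with a | a <;> rcases h'.2.2 with b | b
  · have := filt_add (g := (S.gr w).erase w) (p := fun a => S.sees c a γ)
      (q := fun a => S.sees c a γ') (r := fun a => S.cls c a γ γ')
      (fun t _ p q => sees_two p q hne)
    have k := filt_erase_le (S.gr w) w (fun a => S.cls c a γ γ')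
    have k2 := hv.cl w hw γ hγ γ' hγ'
    have k3 := num.cap hw c γ γ'
    have a2 := a.2
    have b2 := b.2
    unfold sC at a2 b2
    unfold cC at k2 k3
    omega
  · exact sc hne a b
  · exact sc (Ne.symm hne) b a
  · obtain ⟨x, a1, a2, a3, a4⟩ := a
    obtain ⟨y, b1, b2, b3, b4⟩ := b
    have : y = x := ((two_ends (ok.Ecard w hw) h.2.1 a1 a2.symm b1).resolve_left b2)
    subst this
    have := filt_disj (g := ((S.gr w).erase w).filter (fun a => S.sees c a (c y)))
      (p := fun a => S.cls c a γ (c y)) (q := fun a => S.cls c a γ' (c y)) (fun t ht p q => by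
        rcases cls_eq (hE t (mem_filter.mp ht).1) p q with e | e
        · exact hne e.1.symm
        · exact hne (e.2.symm.trans e.1.symm))
    have k : ∀ δ, (((S.gr w).erase w).filter (fun a => S.cls c a δ (c y))).card ≤
        ((((S.gr w).erase w).filter (fun a => S.sees c a (c y))).filter
          (fun a => S.cls c a δ (c y))).card := fun δ => card_le_card (fun t ht => by
      obtain ⟨t1, t2⟩ := mem_filter.mp ht
      obtain ⟨_, _, s, s1, _, _, s2⟩ := id t2
      exact mem_filter.mpr ⟨mem_filter.mpr ⟨t1, s, s1, s2⟩, t2⟩)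
    have k1 := k γ
    have k2 := k γ'
    have k3 := filt_erase_add (g := S.gr w) (p := fun a => S.sees c a (c y)) (ok.mem w hw)
      ⟨y, b1, rfl⟩
    have k4 := hv.star w hw _ a3
    have k5 := cC2_dE (S := S) (c := c) (g := (S.gr w).erase w) (γ := γ) (ζ := c y) (γ' := γ')
      (ζ' := c y) (fun t ht p q => by
        rcases cls_eq (hE t ht) p q with e | e
        · exact hne e.1.symm
        · exact hne (e.2.symm.trans e.1.symm))
    have k6 := filt_erase_add (g := S.gr w) (p := fun a => 2 ≤ (S.E a).card) (ok.mem w hw)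
      (one_lt_card.mpr ⟨y, a1, u, h.2.1, a2⟩)
    unfold dE at k5 n2
    unfold cC at a4 b4 k5
    unfold sC at k4
    omega

theorem VC_single (ok : S.OK) (num : S.Num) {c : V → ℕ} (hv : S.Valid c) {u e : V} {γ γ' : ℕ}
    (h : S.VC c u e γ) (h' : S.VC c u e γ') : γ = γ' := by
  rcases h.2.2 with a | a <;> rcases h'.2.2 with b | b
  · exact a.symm.trans b
  · exact absurd (a ▸ h.2.1) (hv.unc e b.1)
  · exact absurd (b ▸ h'.2.1) (hv.unc e a.1)
  · exact NB_single ok num hv h.2.1 h'.2.1 a b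

omit [Fintype V] in
theorem sees_upd {c : V → ℕ} {u w : V} {γ δ : ℕ} (hu : u ∉ S.E w)
    (h : S.sees (Function.update c u γ) w δ) : S.sees c w δ := by
  obtain ⟨x, hx, h1⟩ := h
  rw [Function.update_of_ne (fun e => hu (by rw [← e]; exact hx))] at h1
  exact ⟨x, hx, h1⟩

omit [Fintype V] in
theorem cls_upd {c : V → ℕ} {u w : V} {γ δ ε : ℕ} (hu : u ∉ S.E w)
    (h : S.cls (Function.update c u γ) w δ ε) : S.cls c w δ ε := by
  obtain ⟨x, hx, y, hy, h0, h1, h2⟩ := h
  rw [Function.update_of_ne (fun e => hu (by rw [← e]; exact hx))] at h1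
  rw [Function.update_of_ne (fun e => hu (by rw [← e]; exact hy))] at h2
  exact ⟨x, hx, y, hy, h0, h1, h2⟩

omit [Fintype V] in
theorem sees_upd' {c : V → ℕ} {u w : V} {γ δ : ℕ} (hne : γ ≠ δ)
    (h : S.sees (Function.update c u γ) w δ) : ∃ x ∈ S.E w, x ≠ u ∧ c x = δ := by
  obtain ⟨x, hx, h1⟩ := h
  have : x ≠ u := fun e => hne (by rw [e] at h1; simpa using h1)
  rw [Function.update_of_ne this] at h1
  exact ⟨x, hx, this, h1⟩

omit [Fintype V] in
theorem cls_unc {c : V → ℕ} {z w : V} {δ ε : ℕ} (hδ : δ < S.D) (hε : ε < S.D)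
    (h : S.cls (Function.update c z S.D) w δ ε) :
    ∃ x ∈ S.E w, ∃ y ∈ S.E w, x ≠ y ∧ c x = δ ∧ c y = ε ∧ x ≠ z ∧ y ≠ z := by
  obtain ⟨x, hx, y, hy, h0, h1, h2⟩ := h
  have a : x ≠ z := fun e => by rw [e] at h1; simp at h1; omega
  have b : y ≠ z := fun e => by rw [e] at h2; simp at h2; omega
  rw [Function.update_of_ne a] at h1
  rw [Function.update_of_ne b] at h2
  exact ⟨x, hx, y, hy, h0, h1, h2, a, b⟩

omit [Fintype V] in
theorem sC_unc (c : V → ℕ) (z : V) (g : Finset V) {δ : ℕ} (hδ : δ < S.D) :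
    S.sC (Function.update c z S.D) g δ ≤ S.sC c g δ :=
  filt_mono (fun a _ h => by
    obtain ⟨x, hx, _, h2⟩ := sees_upd' hδ.ne' h
    exact ⟨x, hx, h2⟩)

omit [Fintype V] in
theorem cC_unc (c : V → ℕ) (z : V) (g : Finset V) {δ ε : ℕ} (hδ : δ < S.D) (hε : ε < S.D) :
    S.cC (Function.update c z S.D) g δ ε ≤ S.cC c g δ ε :=
  filt_mono (fun a _ h => by
    obtain ⟨x, hx, y, hy, h0, h1, h2, _⟩ := cls_unc hδ hε h
    exact ⟨x, hx, y, hy, h0, h1, h2⟩)

theorem put_star (ok : S.OK) (c : V → ℕ) (u : V) (γ : ℕ) {w0 : V} (hw0 : w0 ∈ S.P) {δ : ℕ} :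
    S.sC (Function.update c u γ) (S.gr w0) δ ≤ S.sC c (S.gr w0) δ ∨
      (δ = γ ∧ ∃ w ∈ S.gr w0, u ∈ S.E w ∧ (∀ x ∈ S.E w, x ≠ u → c x ≠ γ) ∧
        S.sC (Function.update c u γ) (S.gr w0) δ ≤ S.sC c ((S.gr w).erase w) γ + 1) := by
  by_cases h : ∀ a ∈ S.gr w0, S.sees (Function.update c u γ) a δ → S.sees c a δ
  · exact Or.inl (filt_mono h)
  · push Not at h
    obtain ⟨w, hw, h1, h2⟩ := h
    have huw : u ∈ S.E w := by
      by_contra hh
      exact h2 (sees_upd hh h1)
    have hδ : δ = γ := by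
      by_contra hh
      obtain ⟨x, hx, _, h3⟩ := sees_upd' (Ne.symm hh) h1
      exact h2 ⟨x, hx, h3⟩
    subst hδ
    refine Or.inr ⟨rfl, w, hw, huw, fun x hx _ e => h2 ⟨x, hx, e⟩, ?_⟩
    rw [ok.eqv w0 hw0 w hw]
    refine filt_le_erase (fun a ha hne q => sees_upd ?_ q)
    exact ok.Edisj w (ok.sub w0 hw0 hw) a (by rw [ok.eqv w0 hw0 w hw]; exact ha) hne u huw

theorem put_cls (ok : S.OK) (c : V → ℕ) (u : V) (γ : ℕ) {w0 : V} (hw0 : w0 ∈ S.P) {δ ε : ℕ} :
    S.cC (Function.update c u γ) (S.gr w0) δ ε ≤ S.cC c (S.gr w0) δ ε ∨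
      ∃ w ∈ S.gr w0, u ∈ S.E w ∧ ∃ x ∈ S.E w, x ≠ u ∧
        ((δ = γ ∧ ε = c x) ∨ (δ = c x ∧ ε = γ)) ∧
        S.cC (Function.update c u γ) (S.gr w0) δ ε ≤ S.cC c ((S.gr w).erase w) γ (c x) + 1 := by
  by_cases h : ∀ a ∈ S.gr w0, S.cls (Function.update c u γ) a δ ε → S.cls c a δ ε
  · exact Or.inl (filt_mono h)
  · push Not at h
    obtain ⟨w, hw, h1, h2⟩ := h
    have huw : u ∈ S.E w := by
      by_contra hh
      exact h2 (cls_upd hh h1)
    have key : S.cC (Function.update c u γ) (S.gr w0) δ ε ≤ S.cC c ((S.gr w).erase w) δ ε + 1 := by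
      rw [ok.eqv w0 hw0 w hw]
      refine filt_le_erase (fun a ha hne q => cls_upd ?_ q)
      exact ok.Edisj w (ok.sub w0 hw0 hw) a (by rw [ok.eqv w0 hw0 w hw]; exact ha) hne u huw
    obtain ⟨x, hx, y, hy, h0, h3, h4⟩ := h1
    refine Or.inr ⟨w, hw, huw, ?_⟩
    by_cases a : x = u
    · subst a
      rw [Function.update_of_ne h0.symm] at h4
      rw [Function.update_self] at h3
      exact ⟨y, hy, h0.symm, Or.inl ⟨h3.symm, h4.symm⟩, by rw [h4]; subst h3; exact key⟩
    · rw [Function.update_of_ne a] at h3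
      by_cases b : y = u
      · subst b
        rw [Function.update_self] at h4
        exact ⟨x, hx, a, Or.inr ⟨h3.symm, h4.symm⟩, by rw [h3]; subst h4; rw [cC_symm c]; exact key⟩
      · rw [Function.update_of_ne b] at h4
        exact absurd ⟨x, hx, y, hy, h0, h3, h4⟩ h2

omit [Fintype V] in
theorem Valid.unc' {c : V → ℕ} (hv : S.Valid c) (z : V) : S.Valid (Function.update c z S.D) := by
  refine ⟨fun w hw => ?_, hv.prop.unc z, fun w hw γ hγ => ?_, fun w hw γ hγ ζ hζ => ?_⟩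
  · by_cases e : w = z
    · subst e; simp
    · rw [Function.update_of_ne e]; exact hv.unc w hw
  · have := sC_unc (S := S) c z (S.gr w) hγ
    have := hv.star w hw γ hγ
    omega
  · exact le_trans (cC_unc c z _ hγ hζ) (hv.cl w hw γ hγ ζ hζ)

theorem put_valid0 (ok : S.OK) {c : V → ℕ} (hv : S.Valid c) {u : V} {γ : ℕ}
    (hu : ¬ c u < S.D) (huP : u ∉ S.P) (hγ : γ < S.D) (h1 : ∀ e, S.G.Adj u e → c e ≠ γ)
    (h2 : ∀ w, ¬ S.HB c u w γ) : S.Valid (Function.update c u γ) := by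
  refine ⟨fun w hw => ?_, hv.prop.put h1, fun w0 hw0 δ hδ => ?_, fun w0 hw0 δ hδ ε hε => ?_⟩
  · rw [Function.update_of_ne (fun e => huP (by rw [← e]; exact hw))]; exact hv.unc w hw
  · rcases put_star ok c u γ hw0 (δ := δ) with h | ⟨rfl, w, hw, a1, a2, a3⟩
    · have := hv.star w0 hw0 δ hδ
      omega
    · have : ¬ S.p w - 1 ≤ S.sC c ((S.gr w).erase w) δ :=
        fun q => h2 w ⟨ok.sub w0 hw0 hw, a1, Or.inl ⟨a2, q⟩⟩
      have := peq ok hw0 hw
      omega
  · rcases put_cls ok c u γ hw0 (δ := δ) (ε := ε) with h | ⟨w, hw, a1, x, a2, a3, a4, a5⟩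
    · exact le_trans h (hv.cl w0 hw0 δ hδ ε hε)
    · have hx : c x < S.D := by rcases a4 with a | a <;> omega
      have : ¬ S.L w ≤ S.cC c ((S.gr w).erase w) γ (c x) :=
        fun q => h2 w ⟨ok.sub w0 hw0 hw, a1, Or.inr ⟨x, a2, a3, hx, q⟩⟩
      have := ok.Leq w0 hw0 w hw
      omega

theorem put_valid (ok : S.OK) (num : S.Num) {c : V → ℕ} (hv : S.Valid c) {u : V} {γ : ℕ}
    (hu : ¬ c u < S.D) (huP : u ∉ S.P) (hγ : γ < S.D) (h1 : ∀ e, S.G.Adj u e → c e ≠ γ)
    (h2 : ∀ w, ¬ S.HB c u w γ) : S.Valid (Function.update c u γ) :=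
  put_valid0 ok hv hu huP hγ h1 h2

theorem holes_put {c : V → ℕ} {u : V} {γ : ℕ} (hu : ¬ c u < S.D) (hγ : γ < S.D) :
    S.holes (Function.update c u γ) + 1 = S.holes c := by
  unfold holes
  rw [filt_erase_add (p := fun v => ¬ c v < S.D) (mem_univ u) hu,
    filt_erase_eq (w := u) (by simpa using hγ)]
  congr 2
  exact filter_congr (fun x hx => by rw [Function.update_of_ne (mem_erase.mp hx).1])

theorem holes_unc {c : V → ℕ} {z : V} (hz : c z < S.D) :
    S.holes (Function.update c z S.D) = S.holes c + 1 := by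
  unfold holes
  rw [filt_erase_add (p := fun v => ¬ Function.update c z S.D v < S.D) (mem_univ z) (by simp),
    filt_erase_eq (p := fun v => ¬ c v < S.D) (w := z) (by simpa using hz)]
  congr 2
  exact filter_congr (fun x hx => by rw [Function.update_of_ne (mem_erase.mp hx).1])

theorem Mono.refl (c : V → ℕ) : S.Mono c c :=
  ⟨fun _ _ _ _ => Or.inl le_rfl, fun _ _ _ _ _ _ => Or.inl le_rfl⟩

theorem Mono.trans {a b c : V → ℕ} (h1 : S.Mono a b) (h2 : S.Mono b c) : S.Mono a c := by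
  refine ⟨fun w hw γ hγ => ?_, fun w hw γ hγ ζ hζ => ?_⟩
  · have := h1.star w hw γ hγ
    have := h2.star w hw γ hγ
    omega
  · have := h1.cl w hw γ hγ ζ hζ
    have := h2.cl w hw γ hγ ζ hζ
    omega

theorem step_mono (ok : S.OK) (num : S.Num) {c : V → ℕ} {u z : V} {γ : ℕ}
    (hu : ¬ c u < S.D) (hγ : γ < S.D) (hz : c z = γ)
    (h2 : ∀ w, S.NB c u w γ → S.Head c u w γ z) :
    S.Mono c (Function.update (Function.update c z S.D) u γ) := by
  have huz : u ≠ z := fun e => hu (by rw [e, hz]; exact hγ)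
  refine ⟨fun w0 hw0 δ hδ => ?_, fun w0 hw0 δ hδ ε hε => ?_⟩
  · rcases put_star ok (Function.update c z S.D) u γ hw0 (δ := δ) with
      h | ⟨rfl, w, hw, a1, a2, a3⟩
    · exact Or.inl (le_trans h (sC_unc c z _ hδ))
    · have hwP := ok.sub w0 hw0 hw
      have hg := ok.eqv w0 hw0 w hw
      have n1 := num.p4 hwP
      have n2 := peq ok hw0 hw
      have n3 := ok.Leq w0 hw0 w hw
      have k1 := sC_unc (S := S) c z ((S.gr w).erase w) hδ
      by_cases b : ∃ x ∈ S.E w, x ≠ u ∧ c x = δ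
      · obtain ⟨x, b1, _, b3⟩ := b
        have := filt_erase_add (g := S.gr w) (p := fun a => S.sees c a δ) (ok.mem w hwP) ⟨x, b1, b3⟩
        left
        rw [← hg]
        rw [← hg] at a3
        unfold sC at *
        omega
      · push Not at b
        by_cases q : S.p w - 2 ≤ S.sC c ((S.gr w).erase w) δ
        · obtain ⟨w2, g1, g2, g3, g4, g5, g6⟩ := h2 w ⟨hwP, a1, Or.inl ⟨b, q⟩⟩
          have hE2 := ok.Ecard w2 (ok.sub w hwP g1)
          have oth : ∀ y ∈ S.E w2, y ≠ z → c y ≠ δ := by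
            by_cases q2 : S.BlkC (S.L w - 2) c u w δ
            · obtain ⟨x, x1, x2, x3, x4⟩ := q2
              obtain ⟨y, y1, y2, y3⟩ := g5 x x1 x2 x3 x4
              intro y' y1' y2'
              rw [(two_ends hE2 g3 y1 y2.symm y1').resolve_left y2', y3]
              exact b x x1 x2
            · exact g6 q2
          have := filt_lt (g := (S.gr w).erase w) (p := fun a => S.sees (Function.update c z S.D) a δ)
            (q := fun a => S.sees c a δ) (fun a _ h => by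
              obtain ⟨x, hx, _, h2⟩ := sees_upd' hδ.ne' h
              exact ⟨x, hx, h2⟩) (mem_erase.mpr ⟨g2, g1⟩) ⟨z, g3, g4⟩ (fun h => by
              obtain ⟨x, hx, h1, h2⟩ := sees_upd' hδ.ne' h
              exact oth x hx h1 h2)
          have k := filt_erase_le (S.gr w) w (fun a => S.sees c a δ)
          left
          rw [← hg]
          rw [← hg] at a3
          unfold sC at *
          omega
        · right
          omega
  · rcases put_cls ok (Function.update c z S.D) u γ hw0 (δ := δ) (ε := ε) with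
      h | ⟨w, hw, a1, x, a2, a3, a4, a5⟩
    · exact Or.inl (le_trans h (cC_unc c z _ hδ hε))
    · have hwP := ok.sub w0 hw0 hw
      have hg := ok.eqv w0 hw0 w hw
      have n1 := num.p4 hwP
      have n2 := peq ok hw0 hw
      have n3 := ok.Leq w0 hw0 w hw
      have hx : Function.update c z S.D x < S.D := by rcases a4 with a | a <;> omega
      have hxz : x ≠ z := fun e => by rw [e] at hx; simp at hx
      rw [Function.update_of_ne hxz] at a4 a5 hx
      have k1 := cC_unc (S := S) c z ((S.gr w).erase w) hγ hx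
      by_cases q : S.L w - 2 ≤ S.cC c ((S.gr w).erase w) γ (c x)
      · obtain ⟨w2, g1, g2, g3, g4, g5, _⟩ := h2 w ⟨hwP, a1, Or.inr ⟨x, a2, a3, hx, q⟩⟩
        have hE2 := ok.Ecard w2 (ok.sub w hwP g1)
        obtain ⟨y, y1, y2, y3⟩ := g5 x a2 a3 hx q
        have := filt_lt (g := (S.gr w).erase w)
          (p := fun a => S.cls (Function.update c z S.D) a γ (c x))
          (q := fun a => S.cls c a γ (c x)) (fun a _ h => by
            obtain ⟨x, hx, y, hy, h0, h1, h2, _⟩ := cls_unc hγ hx h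
            exact ⟨x, hx, y, hy, h0, h1, h2⟩) (mem_erase.mpr ⟨g2, g1⟩)
          ⟨z, g3, y, y1, y2.symm, g4, y3⟩ (fun h => by
            obtain ⟨a, ha, b, hb, h0, _, _, h3, h4⟩ := cls_unc hγ hx h
            rcases two_ends hE2 ha hb h0 g3 with e | e
            · exact h3 e.symm
            · exact h4 e.symm)
        have k := filt_erase_le (S.gr w) w (fun a => S.cls c a γ (c x))
        have k2 : S.cC c (S.gr w0) δ ε = S.cC c (S.gr w) γ (c x) := by
          rw [hg]
          rcases a4 with a | a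
          · rw [a.1, a.2]
          · rw [a.1, a.2, cC_symm]
        left
        rw [k2]
        unfold cC at *
        omega
      · right
        omega

theorem step_min (ok : S.OK) (num : S.Num) {c : V → ℕ} (hm : S.Min c) {u z : V} {γ : ℕ}
    (hu : ¬ c u < S.D) (huP : u ∉ S.P) (hγ : γ < S.D) (hz : c z = γ)
    (h1 : ∀ e, S.G.Adj u e → c e = γ → e = z) (h2 : ∀ w, S.NB c u w γ → S.Head c u w γ z) :
    S.Min (Function.update (Function.update c z S.D) u γ) := by
  have mono := step_mono ok num hu hγ hz h2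
  have huz : u ≠ z := fun e => hu (by rw [e, hz]; exact hγ)
  have v0 := hm.val.unc' z
  refine ⟨⟨fun w hw => ?_, v0.prop.put (fun e he => ?_), fun w hw δ hδ => ?_,
    fun w hw δ hδ ε hε => ?_⟩, fun c' hc' => ?_⟩
  · rw [Function.update_of_ne (fun e => huP (by rw [← e]; exact hw))]; exact v0.unc w hw
  · by_cases q : e = z
    · subst q; simp; omega
    · rw [Function.update_of_ne q]; exact fun h => q (h1 e he h)
  · have := mono.star w hw δ hδ
    have := hm.val.star w hw δ hδ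
    omega
  · have := mono.cl w hw δ hδ ε hε
    have := hm.val.cl w hw δ hδ ε hε
    omega
  · have a := holes_put (S := S) (c := Function.update c z S.D) (u := u)
      (by rw [Function.update_of_ne huz]; exact hu) hγ
    have b := holes_unc (S := S) (c := c) (z := z) (by rw [hz]; exact hγ)
    have := hm.min c' hc'
    omega

theorem seen_all (ok : S.OK) (num : S.Num) {c : V → ℕ} (hm : S.Min c) {u : V}
    (hu : ¬ c u < S.D) (huP : u ∉ S.P) {γ : ℕ} (hγ : γ < S.D) :
    ∃ e, S.G.Adj u e ∧ (c e = γ ∨ S.HB c u e γ) := by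
  by_contra h
  push Not at h
  have := hm.min _ (put_valid ok num hm.val hu huP hγ (fun e he => (h e he).1)
    (fun w hw => (h w (ok.Eadj w hw.1 u hw.2.1).symm).2 hw))
  have := holes_put (S := S) hu hγ
  omega

theorem seen_VC (ok : S.OK) (num : S.Num) {c : V → ℕ} (hm : S.Min c) {u : V}
    (hu : ¬ c u < S.D) (huP : u ∉ S.P) {γ : ℕ} (hγ : γ < S.D) : ∃ e, S.VC c u e γ := by
  obtain ⟨e, h1, h2⟩ := seen_all ok num hm hu huP hγ
  exact ⟨e, h1, hγ, h2.imp id HB.nb⟩

theorem uq_HB (ok : S.OK) (num : S.Num) {c : V → ℕ} (hm : S.Min c) {u w : V}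
    (hu : ¬ c u < S.D) (huP : u ∉ S.P) {γ : ℕ} (hw : w ∈ S.P) (h : S.Uq c u w γ) :
    S.HB c u w γ := by
  obtain ⟨e, h1, h2⟩ := seen_all ok num hm hu huP h.1.2.1
  have := h.2 e ⟨h1, h.1.2.1, h2.imp id HB.nb⟩
  subst this
  rcases h2 with h2 | h2
  · exact absurd (h2 ▸ h.1.2.1) (hm.val.unc e hw)
  · exact h2

theorem NU_card (ok : S.OK) (num : S.Num) {c : V → ℕ} (hm : S.Min c) {u : V}
    (hu : ¬ c u < S.D) (huP : u ∉ S.P) :
    (S.NU c u).card + 2 * S.D ≤ 2 * (nb S.G u).card ∧ S.D ≤ (nb S.G u).card := by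
  let H : ℕ → Finset V := fun γ => (nb S.G u).filter (fun e => S.VC c u e γ)
  have hdisj : ∀ γ ∈ range S.D, ∀ γ' ∈ range S.D, γ ≠ γ' → Disjoint (H γ) (H γ') := by
    intro γ _ γ' _ hne
    rw [disjoint_left]
    intro e h1 h2
    exact hne (VC_single ok num hm.val (mem_filter.mp h1).2 (mem_filter.mp h2).2)
  have hsum : ∑ γ ∈ range S.D, (H γ).card ≤ (nb S.G u).card := by
    rw [← card_biUnion hdisj]
    exact card_le_card (biUnion_subset.mpr (fun γ _ => filter_subset _ _))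
  have hpos : ∀ γ ∈ range S.D, 1 ≤ (H γ).card := by
    intro γ hγ
    obtain ⟨e, he⟩ := seen_VC ok num hm hu huP (mem_range.mp hγ)
    exact card_pos.mpr ⟨e, mem_filter.mpr ⟨mem_nb.mpr he.1, he⟩⟩
  let U := (range S.D).filter (fun γ => (H γ).card = 1)
  have h1 : 2 * S.D ≤ ∑ γ ∈ range S.D, (H γ).card + U.card := by
    have : ∑ γ ∈ range S.D, 2 ≤ ∑ γ ∈ range S.D, ((H γ).card + if (H γ).card = 1 then 1 else 0) := by
      refine sum_le_sum (fun γ hγ => ?_)
      have := hpos γ hγ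
      split_ifs <;> omega
    rw [sum_add_distrib, ← card_filter] at this
    simpa [mul_comm] using this
  have h2 : U.card ≤ ((nb S.G u).filter (fun e => ∃ γ, S.Uq c u e γ)).card := by
    have : U.biUnion H ⊆ (nb S.G u).filter (fun e => ∃ γ, S.Uq c u e γ) := by
      intro e he
      obtain ⟨γ, g1, g2⟩ := mem_biUnion.mp he
      obtain ⟨a, ha⟩ := card_eq_one.mp (mem_filter.mp g1).2
      have g3 := mem_filter.mp g2
      refine mem_filter.mpr ⟨g3.1, γ, g3.2, fun e' he' => ?_⟩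
      have k : e' ∈ H γ := mem_filter.mpr ⟨mem_nb.mpr he'.1, he'⟩
      rw [ha] at k g2
      rw [mem_singleton.mp k, mem_singleton.mp g2]
    have k := card_le_card this
    rw [card_biUnion (fun γ h γ' h' => hdisj γ (mem_filter.mp h).1 γ' (mem_filter.mp h').1),
      sum_congr rfl (fun γ h => (mem_filter.mp h).2)] at k
    simpa using k
  have h3 := card_filter_add_card_filter_not (s := nb S.G u) (fun e => ∃ γ, S.Uq c u e γ)
  have h4 : S.D ≤ ∑ γ ∈ range S.D, (H γ).card := by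
    have := sum_le_sum hpos
    simpa using this
  unfold NU
  omega

end Sys

end Pool.Agent.Lib.MP_12eaff_co.BK3
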