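import Mathlib
import Pool.Agent.Lib.MP_12eaff_co.BK3.State
import Pool.Agent.Lib.MP_12eaff_co.BK.Ext

set_option autoImplicit false
set_option linter.unusedSectionVars false
set_option linter.unusedVariables false

namespace Pool.Agent.Lib.MP_12eaff_co.BK3

open Finset Pool.Agent.Lib.MP_12eaff_co.BK
open scoped Classical

variable {V : Type} [Fintype V]

theorem ext0 (S : Sys V) (Kf : V → Finset V) (hL : ∀ w ∈ S.P, S.L w + 2 ≤ S.p w)
    (hmem : ∀ w ∈ S.P, w ∈ S.gr w) (hsub : ∀ w ∈ S.P, S.gr w ⊆ S.P)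
    (heqv : ∀ w ∈ S.P, ∀ w' ∈ S.gr w, S.gr w' = S.gr w) (hcard : ∀ w ∈ S.P, (S.gr w).card = S.p w)
    (hE : ∀ w ∈ S.P, (S.E w).card ≤ 2) (hEP : ∀ w ∈ S.P, ∀ x ∈ S.E w, x ∉ S.P)
    (hK : ∀ w ∈ S.P, (Kf w).card = S.D) (hgK : ∀ w ∈ S.P, S.gr w ⊆ Kf w)
    (hKeq : ∀ w ∈ S.P, ∀ w' ∈ S.gr w, Kf w' = Kf w)
    (hadj : ∀ w ∈ S.P, ∀ x, S.G.Adj w x → x ∈ Kf w ∨ x ∈ S.E w)
    (hKP : ∀ w ∈ S.P, ∀ x ∈ Kf w, x ∈ S.P → x ∈ S.gr w)
    (c : V → ℕ) (hc : S.Valid c) (hcol : ∀ v, v ∉ S.P → c v < S.D) : Colr S.G S.D := by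
  have key : ∀ g : Finset V, ∃ f : V → ℕ, ∀ w ∈ S.P, S.gr w = g →
      (∀ u ∈ g, ∀ v ∈ g, u ≠ v → f u ≠ f v) ∧
      ∀ u ∈ g, f u ∈ range S.D \ (Kf w \ g).image c ∧ f u ∉ (S.E u).image c := by
    intro g
    by_cases h : ∃ w ∈ S.P, S.gr w = g
    · obtain ⟨w0, hw0, rfl⟩ := h
      have lt : ∀ γ ∈ range S.D \ (Kf w0 \ S.gr w0).image c, γ < S.D := fun γ hγ =>
        mem_range.1 (mem_sdiff.1 hγ).1
      obtain ⟨f, f1, f2⟩ := ext_hall (S.gr w0) (range S.D \ (Kf w0 \ S.gr w0).image c)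
        (fun u => (S.E u).image c) (by
          have a := le_card_sdiff ((Kf w0 \ S.gr w0).image c) (range S.D)
          have b : ((Kf w0 \ S.gr w0).image c).card ≤ (Kf w0 \ S.gr w0).card := card_image_le
          have d := card_sdiff_add_card_eq_card (hgK w0 hw0)
          rw [card_range] at a
          rw [hK w0 hw0] at d
          omega)
        (fun u hu => card_image_le.trans (hE u (hsub w0 hw0 hu)))
        (fun γ hγ => by
          rw [hcard w0 hw0]
          refine le_trans (Nat.add_le_add_right (card_le_card fun u hu => ?_) 1)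
            (hc.star w0 hw0 γ (lt γ hγ))
          exact mem_filter.2 ⟨(mem_filter.1 hu).1, mem_image.1 (mem_filter.1 hu).2⟩)
        (fun γ hγ ζ hζ hne => by
          rw [hcard w0 hw0]
          refine le_trans (Nat.add_le_add_right ((card_le_card fun u hu => ?_).trans
            (hc.cl w0 hw0 γ (lt γ hγ) ζ (lt ζ hζ))) 2) (hL w0 hw0)
          obtain ⟨a, b, d⟩ := mem_filter.1 hu
          obtain ⟨x, x1, x2⟩ := mem_image.1 b
          obtain ⟨y, y1, y2⟩ := mem_image.1 d
          exact mem_filter.2 ⟨a, x, x1, y, y1, fun e => hne (x2 ▸ y2 ▸ congrArg c e), x2, y2⟩)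
      refine ⟨f, fun w hw e => ⟨f1, ?_⟩⟩
      rw [hKeq w0 hw0 w (e ▸ hmem w hw)]
      exact f2
    · exact ⟨c, fun w hw e => absurd ⟨w, hw, e⟩ h⟩
  choose f hf using key
  have out : ∀ u ∈ S.P, ∀ v, v ∉ S.P → S.G.Adj u v → f (S.gr u) u ≠ c v := fun u hu v hv h e => by
    obtain ⟨a, b⟩ := (hf _ u hu rfl).2 u (hmem u hu)
    rcases hadj u hu v h with d | d
    · exact (mem_sdiff.1 a).2 (mem_image.2
        ⟨v, mem_sdiff.2 ⟨d, fun x => hv (hsub u hu x)⟩, e.symm⟩)
    · exact b (mem_image.2 ⟨v, d, e.symm⟩)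
  refine ⟨fun v => if v ∈ S.P then f (S.gr v) v else c v, fun v => ?_, fun u v h => ?_⟩
  · by_cases hv : v ∈ S.P
    · simp only [if_pos hv]
      exact mem_range.1 (mem_sdiff.1 ((hf _ v hv rfl).2 v (hmem v hv)).1).1
    · simp only [if_neg hv]
      exact hcol v hv
  · by_cases hu : u ∈ S.P <;> by_cases hv : v ∈ S.P
    · simp only [if_pos hu, if_pos hv]
      have a : v ∈ S.gr u := hKP u hu v ((hadj u hu v h).resolve_right fun d => hEP u hu v d hv) hv
      rw [heqv u hu v a]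
      exact (hf _ u hu rfl).1 u (hmem u hu) v a h.ne
    · simp only [if_pos hu, if_neg hv]
      exact out u hu v hv h
    · simp only [if_neg hu, if_pos hv]
      exact (out v hv u hu h.symm).symm
    · simp only [if_neg hu, if_neg hv]
      exact hc.prop u v h (hcol u hu)

theorem ext3 (G : SimpleGraph V) (S : Sys V) (Del : Finset V) (Kf : V → Finset V) :
    ExtSt G S Del Kf := by
  intro deg hG hmem hsub heqv hcard h4 hE hE2 hEP hdis hK hgK hKeq hKP hDel c hc cap hcol
  by_contra ncol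
  let S' : Sys V := ⟨G, S.D, S.p, fun w => S.p w - 2, S.P, S.gr, fun w => nb G w \ Kf w⟩
  have pq : ∀ w ∈ S.P, ∀ w' ∈ S.gr w, S.p w' = S.p w := fun w hw w' h => by
    rw [← hcard w hw, ← hcard w' (hsub w hw h), heqv w hw w' h]
  have ok : S'.OK := ⟨deg, hmem, hsub, heqv, hcard, fun w hw w' h => by
      change S.p w' - 2 = S.p w - 2
      rw [pq w hw w' h],
    fun w _ x hx => mem_nb.1 (mem_sdiff.1 hx).1, hE2, hEP, hdis, fun c' hc' => by
      by_contra n
      refine ncol (ext0 S' Kf (fun w hw => ?_) hmem hsub heqv hcard hE2 hEP hK hgK hKeq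
        (fun w _ x hx => ?_) hKP c' hc' fun v hv => by_contra fun e => n ⟨v, hv, e⟩)
      · have := h4 w hw
        change S.p w - 2 + 2 ≤ S.p w
        omega
      · by_cases e : x ∈ Kf w
        exacts [Or.inl e, Or.inr (mem_sdiff.2 ⟨mem_nb.2 hx, e⟩)]⟩
  have step : ∀ a ∈ Del, ∀ c', S'.Valid c' → ¬ c' a < S.D →
      ∃ γ < S.D, S'.Valid (Function.update c' a γ) := by
    intro a ha c' hc' hu
    obtain ⟨aP, w0, hw0, aK, a2⟩ := hDel a ha
    let F : V → Finset ℕ := fun x => if x ∈ S.P then (range S.D).filter (fun γ => S'.HB c' a x γ)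
      else {c' x}
    have hF : ∀ x, (F x).card ≤ 2 := by
      intro x
      by_cases hx : x ∈ S.P
      swap
      · simp [F, hx]
      have p4 := h4 x hx
      have ce := Sys.card_er ok hx
      have hEe : ∀ t ∈ (S'.gr x).erase x, (S'.E t).card ≤ 2 :=
        fun t ht => hE2 t (hsub x hx (mem_of_mem_erase ht))
      have k1 : ((range S.D).filter (fun γ => S'.BlkS (S.p x - 1) c' a x γ)).card ≤ 1 := by
        rw [card_le_one]
        intro γ hγ ζ hζ
        by_contra hne
        obtain ⟨a1, _, a3⟩ := mem_filter.mp hγ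
        obtain ⟨b1, _, b3⟩ := mem_filter.mp hζ
        have := Sys.filt_add (g := (S'.gr x).erase x) (p := fun t => S'.sees c' t γ)
          (q := fun t => S'.sees c' t ζ) (r := fun t => S'.cls c' t γ ζ)
          (fun t _ p q => Sys.sees_two p q hne)
        have k := Sys.filt_erase_le (S'.gr x) x (fun t => S'.cls c' t γ ζ)
        have k2 : S'.cC c' (S'.gr x) γ ζ ≤ S.p x - 2 :=
          hc'.cl x hx γ (mem_range.mp a1) ζ (mem_range.mp b1)
        have ce' : ((S'.gr x).erase x).card + 1 = S.p x := ce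
        unfold Sys.sC at a3 b3
        unfold Sys.cC at k2
        omega
      have k2 : ((range S.D).filter (fun γ => a ∈ S'.E x ∧ S'.BlkC (S.p x - 2) c' a x γ)).card ≤ 1 := by
        rw [card_le_one]
        intro γ hγ ζ hζ
        by_contra hne
        obtain ⟨_, a0, y, a1, a2, _, a4⟩ := mem_filter.mp hγ
        obtain ⟨_, _, z, b1, b2, _, b4⟩ := mem_filter.mp hζ
        have : z = y := ((Sys.two_ends (hE2 x hx) a0 a1 a2.symm b1).resolve_left b2)
        subst this
        have := Sys.filt_disj (g := (S'.gr x).erase x) (p := fun t => S'.cls c' t γ (c' z))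
          (q := fun t => S'.cls c' t ζ (c' z)) (fun t ht p q => by
            rcases Sys.cls_eq (hEe t ht) p q with e | e
            · exact hne e.1.symm
            · exact hne (e.2.symm.trans e.1.symm))
        have ce' : ((S'.gr x).erase x).card + 1 = S.p x := ce
        unfold Sys.cC at a4 b4
        omega
      simp only [F, if_pos hx]
      refine le_trans (card_le_card (fun γ hγ => ?_)) (le_trans (card_union_le
        ((range S.D).filter (fun γ => S'.BlkS (S.p x - 1) c' a x γ))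
        ((range S.D).filter (fun γ => a ∈ S'.E x ∧ S'.BlkC (S.p x - 2) c' a x γ))) (by omega))
      obtain ⟨a1, _, a2, a3⟩ := mem_filter.mp hγ
      exact mem_union.mpr (a3.imp (fun q => mem_filter.mpr ⟨a1, q⟩)
        (fun q => mem_filter.mpr ⟨a1, a2, q⟩))
    have b1 := card_biUnion_le_card_mul (nb G a \ Kf w0) F 2 (fun x _ => hF x)
    have b2 : (((Kf w0 \ S.gr w0).erase a).image c').card ≤ _ := card_image_le
    have b3 := card_erase_add_one (mem_sdiff.mpr ⟨aK, fun q => aP (hsub w0 hw0 q)⟩ :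
      a ∈ Kf w0 \ S.gr w0)
    have b4 := card_sdiff_add_card_eq_card (hgK w0 hw0)
    have b5 := card_union_le ((nb G a \ Kf w0).biUnion F) (((Kf w0 \ S.gr w0).erase a).image c')
    have b6 := hK w0 hw0
    have b7 := hcard w0 hw0
    have b8 := h4 w0 hw0
    obtain ⟨γ, g1, g2⟩ := exists_col_notMem (D := S.D)
      ((nb G a \ Kf w0).biUnion F ∪ ((Kf w0 \ S.gr w0).erase a).image c') (by omega)
    rw [mem_union, not_or] at g2
    refine ⟨γ, g1, Sys.put_valid0 ok hc' hu aP g1 (fun e he q => ?_) (fun w hw => ?_)⟩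
    · have eP : e ∉ S.P := fun k => hc'.unc e k (by rw [q]; exact g1)
      by_cases k : e ∈ Kf w0
      · exact g2.2 (mem_image.mpr ⟨e, mem_erase.mpr ⟨he.ne', mem_sdiff.mpr
          ⟨k, fun r => eP (hsub w0 hw0 r)⟩⟩, q⟩)
      · exact g2.1 (mem_biUnion.mpr ⟨e, mem_sdiff.mpr ⟨mem_nb.mpr he, k⟩, by simp [F, eP, q]⟩)
    · have wP : w ∈ S.P := hw.1
      obtain ⟨k1, k2⟩ := mem_sdiff.mp hw.2.1
      refine g2.1 (mem_biUnion.mpr ⟨w, mem_sdiff.mpr ⟨mem_nb.mpr (mem_nb.mp k1).symm, fun r => ?_⟩,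
        by simp only [F, if_pos wP]; exact mem_filter.mpr ⟨mem_range.mpr g1, hw⟩⟩)
      exact k2 (hKeq w0 hw0 w (hKP w0 hw0 w r wP) ▸ aK)
  have all : ∀ A : Finset V, A ⊆ Del → ∃ c', S'.Valid c' ∧ ∀ v, v ∉ S.P →
      (c' v < S.D ↔ (v ∉ Del ∨ v ∈ A)) := by
    intro A
    induction A using Finset.induction_on with
    | empty =>
      intro _
      have tr : ∀ w ∈ S.P, ∀ x ∈ S'.E w, (if x ∈ Del then S.D else c x) < S.D →
          x ∈ S.E w ∧ (if x ∈ Del then S.D else c x) = c x := fun w hw x hx h => by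
        by_cases q : x ∈ Del
        · simp [q] at h
        · exact ⟨by rw [hE w hw]; exact mem_sdiff.mpr ⟨hx, q⟩, if_neg q⟩
      refine ⟨fun v => if v ∈ Del then S.D else c v, ⟨fun w hw => ?_, fun u v h hu => ?_,
        fun w hw γ hγ => ?_, fun w hw γ hγ ζ hζ => ?_⟩, fun v hv => ?_⟩
      · have : w ∉ Del := fun q => (hDel w q).1 hw
        simp only [if_neg this]
        exact hc.unc w hw
      · by_cases q : u ∈ Del
        · simp only [if_pos q] at hu
          exact absurd hu (lt_irrefl _)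
        · simp only [if_neg q] at hu ⊢
          by_cases r : v ∈ Del
          · simp only [if_pos r]
            exact ne_of_lt hu
          · simp only [if_neg r]
            exact hc.prop u v ((hG u v).mpr ⟨h, q, r⟩) hu
      · refine le_trans (Nat.add_le_add_right (Sys.filt_mono (fun t ht q => ?_)) 1)
          (hc.star w hw γ hγ)
        obtain ⟨x, x1, x2⟩ := q
        obtain ⟨k1, k2⟩ := tr t (hsub w hw ht) x x1 (lt_of_eq_of_lt x2 hγ)
        exact ⟨x, k1, k2.symm.trans x2⟩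
      · have k := cap w hw γ hγ ζ hζ
        refine le_trans (Sys.filt_mono (q := fun t => S.cls c t γ ζ) (fun t ht q => ?_)) ?_
        · obtain ⟨x, x1, y, y1, n, x2, y2⟩ := q
          obtain ⟨k1, k2⟩ := tr t (hsub w hw ht) x x1 (lt_of_eq_of_lt x2 hγ)
          obtain ⟨l1, l2⟩ := tr t (hsub w hw ht) y y1 (lt_of_eq_of_lt y2 hζ)
          exact ⟨x, k1, y, l1, n, k2.symm.trans x2, l2.symm.trans y2⟩
        · change S.cC c (S.gr w) γ ζ ≤ S.p w - 2
          omega
      · by_cases q : v ∈ Del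
        · simp [q]
        · simp [q, hcol v hv]
    | insert a A ha ih =>
      intro hA
      obtain ⟨c', v1, v2⟩ := ih ((subset_insert _ _).trans hA)
      have aD := hA (mem_insert_self _ _)
      obtain ⟨γ, g1, g2⟩ := step a aD c' v1 (fun q => by
        rcases (v2 a (hDel a aD).1).mp q with r | r
        · exact r aD
        · exact ha r)
      refine ⟨_, g2, fun v hv => ?_⟩
      by_cases e : v = a
      · rw [e, Function.update_self]
        simp [g1]
      · rw [Function.update_of_ne e, v2 v hv]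
        simp [e]
  obtain ⟨c', v1, v2⟩ := all Del Subset.rfl
  obtain ⟨v, a, b⟩ := ok.hole c' v1
  exact b ((v2 v a).mpr (by tauto))

end Pool.Agent.Lib.MP_12eaff_co.BK3
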