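import Mathlib
import Pool.Agent.Lib.MP_12eaff_co.BK3.Tree

set_option autoImplicit false
set_option linter.unusedSectionVars false
set_option linter.unusedVariables false

namespace Pool.Agent.Lib.MP_12eaff_co.BK3

open Finset Pool.Agent.Lib.MP_12eaff_co.BK
open scoped Classical

variable {V : Type} [Fintype V]

def Tr.Inner (T : Tr V) (x : V) : Prop := ∃ z ∈ T.R, z ≠ T.r ∧ T.par z = x

namespace Sys

variable (S : Sys V)

noncomputable def Pot (c0 : V → ℕ) (w : V) : Finset ℕ :=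
  (range S.D).filter (fun γ => S.p w - 1 ≤ S.sC c0 (S.gr w) γ ∨
    ∃ ζ < S.D, S.L w - 1 ≤ S.cC c0 (S.gr w) γ ζ)

def TrP (c0 : V → ℕ) (T : Tr V) (y z : V) : Prop :=
  ∃ x ∈ T.R, x ≠ T.r ∧ T.Inner x ∧ y ∈ S.NU (T.col (T.par x)) (T.par x) ∧ c0 z = c0 x

/-- `e` is an available, so far untouched neighbour of `u`. -/
def Good (T : Tr V) (u e : V) : Prop :=
  S.G.Adj u e ∧ e ∉ S.P ∧ e ∉ T.A u ∧ e ∉ S.NU (T.col u) u

variable {S} {c0 : V → ℕ} {T : Tr V}

theorem Pot_card (ok : S.OK) (num : S.Num) {w : V} (hw : w ∈ S.P) : (S.Pot c0 w).card ≤ 2 := by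
  have n1 := num.p4 hw
  have n2 := num.h2 w hw
  have hc := ok.card w hw
  have hE : ∀ a ∈ S.gr w, (S.E a).card ≤ 2 := fun a ha => ok.Ecard a (ok.sub w hw ha)
  by_cases h : ∃ γ0 ζ0, ζ0 < S.D ∧ S.L w - 1 ≤ S.cC c0 (S.gr w) γ0 ζ0
  · obtain ⟨γ0, ζ0, _, h2⟩ := h
    have : S.Pot c0 w ⊆ {γ0, ζ0} := by
      intro γ hγ
      by_contra hn
      simp only [mem_insert, mem_singleton, not_or] at hn
      rcases (mem_filter.mp hγ).2 with q | ⟨ζ, _, q⟩
      · have := filt_disj (g := S.gr w) (p := fun a => S.sees c0 a γ)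
          (q := fun a => S.cls c0 a γ0 ζ0) (fun t ht p q => by
            rcases cls_sees (hE t ht) q p with e | e
            · exact hn.1 e
            · exact hn.2 e)
        unfold sC at q
        unfold cC at h2
        omega
      · have := filt_disj (g := S.gr w) (p := fun a => S.cls c0 a γ0 ζ0)
          (q := fun a => S.cls c0 a γ ζ) (fun t ht p q => by
            rcases cls_eq (hE t ht) p q with e | e
            · exact hn.1 e.1
            · exact hn.2 e.1)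
        have k5 := cC2_dE (S := S) (c := c0) (g := S.gr w) (γ := γ0) (ζ := ζ0) (γ' := γ)
          (ζ' := ζ) (fun t ht p q => by
            rcases cls_eq (hE t ht) p q with e | e
            · exact hn.1 e.1
            · exact hn.2 e.1)
        unfold cC at h2 q k5
        omega
    exact le_trans (card_le_card this) card_le_two
  · push Not at h
    have : (S.Pot c0 w).card ≤ 1 := by
      rw [card_le_one]
      intro γ hγ γ' hγ'
      by_contra hne
      have a := mem_filter.mp hγ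
      have b := mem_filter.mp hγ'
      have a2 := a.2.resolve_right (fun ⟨ζ, q1, q2⟩ => absurd (h γ ζ q1) (by omega))
      have b2 := b.2.resolve_right (fun ⟨ζ, q1, q2⟩ => absurd (h γ' ζ q1) (by omega))
      have := filt_add (g := S.gr w) (p := fun a => S.sees c0 a γ)
        (q := fun a => S.sees c0 a γ') (r := fun a => S.cls c0 a γ γ')
        (fun t _ p q => sees_two p q hne)
      have k := h γ γ' (mem_range.mp b.1)
      have k3 := num.cap hw c0 γ γ'
      unfold sC at a2 b2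
      unfold cC at k k3
      omega
    omega

theorem pot_of (num : S.Num) {c : V → ℕ} (mono : S.Mono c0 c) {w : V} (hw : w ∈ S.P) {γ : ℕ}
    (hγ : γ < S.D) (h : S.p w - 1 ≤ S.sC c (S.gr w) γ ∨ ∃ ζ < S.D, S.L w - 1 ≤ S.cC c (S.gr w) γ ζ) :
    γ ∈ S.Pot c0 w := by
  have n1 := num.p4 hw
  refine mem_filter.mpr ⟨mem_range.mpr hγ, ?_⟩
  rcases h with h | ⟨ζ, h1, h2⟩
  · have := mono.star w hw γ hγ
    left; omega
  · have := mono.cl w hw γ hγ ζ h1
    exact Or.inr ⟨ζ, h1, by omega⟩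

theorem sC_erase (c : V → ℕ) (g : Finset V) (w : V) (γ : ℕ) : S.sC c (g.erase w) γ ≤ S.sC c g γ :=
  filt_erase_le _ _ _

theorem cC_erase (c : V → ℕ) (g : Finset V) (w : V) (γ ζ : ℕ) :
    S.cC c (g.erase w) γ ζ ≤ S.cC c g γ ζ :=
  filt_erase_le _ _ _

theorem put_cls_le (ok : S.OK) (c : V → ℕ) (u : V) (γ : ℕ) {w0 : V} (hw0 : w0 ∈ S.P) (δ ε : ℕ) :
    S.cC (Function.update c u γ) (S.gr w0) δ ε ≤ S.cC c (S.gr w0) δ ε + 1 := by
  rcases put_cls ok c u γ hw0 (δ := δ) (ε := ε) with h | ⟨w, hw, _, x, _, _, a4, a5⟩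
  · omega
  · have k := cC_erase (S := S) c (S.gr w) w γ (c x)
    rw [ok.eqv w0 hw0 w hw] at k a5
    rcases a4 with a | a
    · rw [a.1, a.2] at a5 ⊢; omega
    · rw [a.1, a.2] at a5 ⊢
      rw [cC_symm c _ (c x) γ]; omega

theorem Ctx.inner_of (X : Ctx S c0 T) {h x : V} (hh : h ∈ T.R) (hx : x ∈ T.A h) (hne : x ≠ h) :
    T.Inner x := by
  obtain ⟨y, a, b, c, _⟩ := X.next h hh x hx hne
  exact ⟨y, (X.anc h hh y a).1, b, c⟩

theorem Ctx.good_mv (X : Ctx S c0 T) {u e : V} (hu : u ∈ T.R) (g : S.Good T u e) :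
    S.Mv (T.col u) u e := X.mv_of hu g.1 g.2.1 g.2.2.2

theorem Ctx.good_R (X : Ctx S c0 T) {u e : V} (hu : u ∈ T.R) (g : S.Good T u e) :
    e ∈ T.R ∧ T.t (T.par e) ≤ T.t u := X.pt.clos u hu e g.2.2.1 (Or.inl (X.good_mv hu g))

variable (S)

noncomputable def PL (c0 : V → ℕ) (T : Tr V) (u : V) : Finset V :=
  (nb S.G u).filter (fun e => S.Uq (T.col u) u e (c0 u))

noncomputable def Bad (c0 : V → ℕ) (T : Tr V) (u : V) : Finset V :=
  S.NU (T.col u) u ∪ S.PL c0 T u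

variable {S}

theorem PL_card (u : V) : (S.PL c0 T u).card ≤ 1 := by
  rw [card_le_one]
  intro a ha b hb
  exact (mem_filter.mp hb).2.2 a (mem_filter.mp ha).2.1

theorem Ctx.inv_uq (X : Ctx S c0 T) {u w : V} (hu : u ∈ T.R) (ha : S.G.Adj u w) (hw : w ∈ S.P)
    (hb : w ∉ S.Bad c0 T u) :
    ∃ γ, S.Uq (T.col u) u w γ ∧ γ ≠ c0 u ∧ S.HB (T.col u) u w γ := by
  have : ∃ γ, S.Uq (T.col u) u w γ := by
    by_contra q
    exact hb (mem_union_left _ (mem_filter.mpr ⟨mem_nb.mpr ha, q⟩))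
  obtain ⟨γ, h⟩ := this
  have st := X.st u hu
  exact ⟨γ, h, fun e => hb (mem_union_right _ (mem_filter.mpr ⟨mem_nb.mpr ha, e ▸ h⟩)),
    uq_HB X.ok X.num st.min st.hole st.nP hw h⟩

end Sys

end Pool.Agent.Lib.MP_12eaff_co.BK3
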