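import Mathlib
import Pool.Agent.Lib.MP_12eaff_co.BK3.Keep

set_option autoImplicit false
set_option linter.unusedSectionVars false
set_option linter.unusedVariables false

namespace Pool.Agent.Lib.MP_12eaff_co.BK3

open Finset Pool.Agent.Lib.MP_12eaff_co.BK
open scoped Classical

variable {V : Type} [Fintype V]

namespace Sys

variable (S : Sys V)

/-- The other end of `w` is an inner node. -/
def IP (T : Tr V) (v w : V) : Prop := ∃ x ∈ S.E w, x ≠ v ∧ T.Inner x

def Exc (c0 : V → ℕ) (T : Tr V) (v w : V) (γ : ℕ) : Prop :=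
  γ ≠ c0 v ∧ ((S.IP T v w ∧ γ ∈ S.Pot c0 w) ∨ S.HC c0 w γ (c0 v) ∨ S.HC c0 w γ γ)

def W0 (c0 : V → ℕ) (T : Tr V) (y z : V) : Prop :=
  S.G.Adj y z ∧ c0 z < S.D ∧ (∀ e, S.G.Adj y e → e ≠ z → c0 e ≠ c0 z) ∧
    ∀ w ∈ S.P, y ∈ S.E w → ¬ S.Exc c0 T y w (c0 z)

structure Cn (c0 : V → ℕ) (T : Tr V) (y z : V) : Prop where
  r1 : y ∈ T.R
  r2 : z ∈ T.R
  w1 : S.W0 c0 T y z
  w2 : S.W0 c0 T z y
  t1 : ¬ S.TrP c0 T y z
  t2 : ¬ S.TrP c0 T z y
  g1 : S.Good T y z
  g2 : S.Good T z y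

noncomputable def Cl2 (c0 : V → ℕ) (T : Tr V) (z : V) : Finset V :=
  univ.filter (fun y => S.Cn c0 T y z)

/-- `z` is the target of a passage. -/
def Hd (c0 : V → ℕ) (T : Tr V) (z : V) : Prop := ∃ h ∈ T.R, z ∉ T.A h ∧ S.Ps c0 (T.col h) h z

variable {S} {c0 : V → ℕ} {T : Tr V}

theorem Cn.symm {y z : V} (h : S.Cn c0 T y z) : S.Cn c0 T z y :=
  ⟨h.r2, h.r1, h.w2, h.w1, h.t2, h.t1, h.g2, h.g1⟩

theorem mem_Cl2 {y z : V} : y ∈ S.Cl2 c0 T z ↔ S.Cn c0 T y z := by simp [Cl2]

theorem Ctx.good_uq (X : Ctx S c0 T) {u e : V} (hu : u ∈ T.R) (g : S.Good T u e) :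
    S.Uq (T.col u) u e (c0 e) := by
  have := X.good_mv hu g
  unfold Mv at this
  rwa [(X.st u hu).out e g.2.2.1] at this

theorem Ctx.good_nb (X : Ctx S c0 T) {u e w : V} (hu : u ∈ T.R) (g : S.Good T u e) :
    ¬ S.NB (T.col u) u w (c0 e) := fun hb => by
  have k := X.good_uq hu g
  exact g.2.1 (k.2 w ⟨(X.ok.Eadj w hb.1 u hb.2.1).symm, k.1.2.1, Or.inr hb⟩ ▸ hb.1)

theorem Ctx.mv_nb (X : Ctx S c0 T) {h z w : V} (hh : h ∈ T.R) (hz : z ∉ T.A h)
    (mv : S.Mv (T.col h) h z) : ¬ S.NB (T.col h) h w (c0 z) := fun hb => by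
  have k := (X.step_nb hh hz (Or.inl mv) hb).2
  have e := (X.st h hh).out z hz
  have := k.2 z (e ▸ mv.1)
  exact (X.st h hh).min.val.unc z (this ▸ hb.1) mv.1.2.1

omit [Fintype V] in
theorem hs_of (num : S.Num) {c : V → ℕ} (mono : S.Mono c0 c) {w : V} (hw : w ∈ S.P) {γ : ℕ}
    (hγ : γ < S.D) (h : S.p w - 1 ≤ S.sC c (S.gr w) γ) : S.HS c0 w γ := by
  have := num.p4 hw
  have := mono.star w hw γ hγ
  exact ⟨hγ, by omega⟩

omit [Fintype V] in
theorem hc_of (num : S.Num) {c : V → ℕ} (mono : S.Mono c0 c) {w : V} (hw : w ∈ S.P) {γ ζ : ℕ}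
    (hγ : γ < S.D) (hζ : ζ < S.D) (h : S.L w - 1 ≤ S.cC c (S.gr w) γ ζ) : S.HC c0 w γ ζ := by
  have := num.p4 hw
  have := mono.cl w hw γ hγ ζ hζ
  exact ⟨hγ, hζ, by omega⟩

omit [Fintype V] in
theorem HS.pot {w : V} {γ : ℕ} (h : S.HS c0 w γ) : γ ∈ S.Pot c0 w :=
  mem_filter.mpr ⟨mem_range.mpr h.1, Or.inl h.2⟩

theorem Ctx2.lem2 (X : Ctx2 S c0 T) : ∀ h ∈ T.R, ∀ z y, z ∉ T.A h → S.Step c0 (T.col h) h z →
    S.Cn c0 T y z → y ∉ T.A h → S.G.Adj h y ∨ c0 y = c0 h ∨
      ∃ w', S.NB (T.col h) h w' (c0 z) ∧ ∃ w ∈ S.P, w' ∈ S.gr w ∧ y ∈ S.E w ∧ z ∈ S.E w := by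
  have main : ∀ n, ∀ h ∈ T.R, T.t h = n → ∀ z y, z ∉ T.A h → S.Step c0 (T.col h) h z →
      S.Cn c0 T y z → y ∉ T.A h → S.G.Adj h y ∨ c0 y = c0 h ∨
      ∃ w', S.NB (T.col h) h w' (c0 z) ∧ ∃ w ∈ S.P, w' ∈ S.gr w ∧ y ∈ S.E w ∧ z ∈ S.E w := by
    intro n
    induction n using Nat.strong_induction_on with
    | _ n ih =>
      intro h hh hn z y hz hs cn hy
      have ok := X.ok
      have num := X.num
      have st := X.st h hh
      have vis : ∀ v v', S.Cn c0 T v v' → v ∉ T.A h → v' ∉ T.A h → ∀ x ∈ T.A h,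
          x ≠ h → S.G.Adj v x → T.col h x = c0 v' → c0 v' = c0 h := by
        intro v v' u1 hv hv' x hx hne ha hc
        obtain ⟨x', a, b, c, d⟩ := X.next h hh x hx hne
        by_cases e : x' = h
        · rw [← hc, d, e]
        · exfalso
          obtain ⟨xR, xA, xt⟩ := X.anc h hh x hx
          have x'R := (X.anc h hh x' a).1
          have k1 : v ∉ S.NU (T.col x) x := fun q =>
            u1.t1 ⟨x', x'R, b, X.inner_of hh a e, c ▸ q, hc.symm.trans d⟩
          have mv := X.mv_of xR ha.symm u1.g2.2.1 k1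
          have stp := X.pt.step x' x'R b
          have nA := X.pt.notA x' x'R b
          rw [c] at stp nA
          rcases ih _ (hn ▸ xt.resolve_left hne) x xR rfl v v' (fun q => hv (xA q)) (Or.inl mv)
            u1.symm (fun q => hv' (xA q)) with q | q | ⟨w', q, _⟩
          · have := stp.vis (X.st x xR).min.val q (by
              rw [(X.st x xR).out v' (fun q => hv' (xA q)), (X.st x xR).out x' nA, ← hc, d])
            exact hv' (this ▸ a)
          · exact X.step_ne xR nA stp (by rw [← d, hc, q])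
          · exact X.mv_nb xR (fun q => hv (xA q)) mv q
      by_contra hcon
      rw [not_or, not_or] at hcon
      obtain ⟨nadj, nc, n3⟩ := hcon
      obtain ⟨m1, m2⟩ := st.step ok num hz hs
      set σ := Function.update (Function.update (T.col h) z S.D) h (c0 z) with hσ
      have zh : z ≠ h := fun e => hz (e ▸ st.self)
      have yh : y ≠ h := fun e => hy (e ▸ st.self)
      have yz : y ≠ z := cn.w1.1.ne
      have cz := cn.w1.2.1
      have cy := cn.w2.2.1
      have cyz : c0 y ≠ c0 z := X.hm.val.prop y z cn.w1.1 cy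
      have σo : ∀ e, e ≠ h → e ≠ z → σ e = T.col h e := fun e a b => by
        rw [hσ, Function.update_of_ne a, Function.update_of_ne b]
      have σh : σ h = c0 z := by rw [hσ, Function.update_self]
      have σz : σ z = S.D := by rw [hσ, Function.update_of_ne zh, Function.update_self]
      have σy : σ y = c0 y := by rw [σo y yh yz, st.out y hy]
      have zP : z ∉ S.P := cn.g1.2.1
      have yP : y ∉ S.P := cn.g2.2.1
      have unt : ∀ v w x, v ∈ T.R → ¬ S.IP T v w → x ∈ S.E w → x ≠ v → x ≠ h →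
          T.col h x = c0 x ∧ T.col v x = c0 x := fun v w x hv ip x1 x2 x3 =>
        ⟨st.out x (fun q => ip ⟨x, x1, x2, X.inner_of hh q x3⟩),
          (X.st v hv).out x (fun q => ip ⟨x, x1, x2, X.inner_of hv q x2⟩)⟩
      have unh : ∀ v w, v ∈ T.R → ¬ S.IP T v w → h ∈ S.E w → h ≠ v → T.col v h = c0 h :=
        fun v w hv ip x1 x2 => (X.st v hv).out h (fun q => ip ⟨h, x1, x2, X.inner_of hv q x2⟩)
      set τ0 := Function.update σ y S.D with hτ0
      have v0 : S.Valid τ0 := m1.val.unc' y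
      have τ0z : ¬ τ0 z < S.D := by rw [hτ0, Function.update_of_ne yz.symm, σz]; omega
      have τ0o : ∀ e, e ≠ y → τ0 e = σ e := fun e a => by rw [hτ0, Function.update_of_ne a]
      have v1 : S.Valid (Function.update τ0 z (c0 y)) := by
        refine put_valid ok num v0 τ0z zP cy (fun e he hc => ?_) (fun w hw => ?_)
        · have ey : e ≠ y := fun q => by rw [q, hτ0, Function.update_self] at hc; omega
          rw [τ0o e ey] at hc
          by_cases q1 : e = h
          · rw [q1, σh] at hc; exact cyz hc.symm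
          · rw [σo e q1 he.ne'] at hc
            by_cases q2 : e ∈ T.A h
            · exact nc (vis z y cn.symm hz hy e q2 q1 he hc)
            · rw [st.out e q2] at hc
              exact cn.w2.2.2.1 e he ey hc
        · have nE := cn.w2.2.2.2 w hw.1 hw.2.1
          rcases hw.2.2 with q | ⟨x, x1, x2, q3, q4⟩
          · have a := le_trans q.2 (sC_unc σ y _ cy)
            have hs' := hs_of num m2 hw.1 cy (le_trans a (sC_erase _ _ _ _))
            have ip : ¬ S.IP T z w := fun ip => nE ⟨cyz, Or.inl ⟨ip, hs'.pot⟩⟩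
            refine X.good_nb cn.r2 cn.g2 (X.nb_hs cn.r2 hw.1 hw.2.1 hs' (fun x x1 x2 => ?_))
            by_cases e1 : x = h
            · rw [e1, unh z w cn.r2 ip (e1 ▸ x1) zh.symm]
              exact fun e => nc e.symm
            by_cases e2 : x = y
            · exfalso
              have := filt_erase_add (g := S.gr w) (p := fun t => S.sees σ t (c0 y))
                (ok.mem w hw.1) ⟨y, e2 ▸ x1, σy⟩
              have k := m1.val.star w hw.1 _ cy
              unfold sC at a k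
              omega
            · have k := q.1 x x1 x2
              obtain ⟨k1, k2⟩ := unt z w x cn.r2 ip x1 x2 e1
              rw [τ0o x e2, σo x e1 x2, k1] at k
              rwa [k2]
          · have hc' := hc_of num m2 hw.1 cy q3 (le_trans (by omega)
              (le_trans q4 (le_trans (cC_erase _ _ _ _ _) (cC_unc σ y _ cy q3))))
            have ip : ¬ S.IP T z w := fun ip => nE ⟨cyz, Or.inl ⟨ip, hc'.pot⟩⟩
            have e2 : x ≠ y := fun e => by rw [e, hτ0, Function.update_self] at q3; omega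
            rw [τ0o x e2] at hc'
            by_cases e1 : x = h
            · rw [e1, σh] at hc'
              exact nE ⟨cyz, Or.inr (Or.inl hc')⟩
            · obtain ⟨k1, k2⟩ := unt z w x cn.r2 ip x1 x2 e1
              rw [σo x e1 x2, k1, ← k2] at hc'
              exact X.good_nb cn.r2 cn.g2 (X.nb_hc cn.r2 hw.1 hw.2.1 x1 x2 hc')
      set τ := Function.update τ0 z (c0 y) with hτ
      have m3 : S.Min τ := by
        refine ⟨v1, fun c' hc' => ?_⟩
        have a := holes_put (S := S) τ0z cy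
        have b := holes_unc (S := S) (c := σ) (z := y) (by rw [σy]; exact cy)
        have := m1.min c' hc'
        rw [← hτ] at a
        rw [← hτ0] at b
        omega
      have τy : ¬ τ y < S.D := by
        rw [hτ, Function.update_of_ne yz, hτ0, Function.update_self]; omega
      have τo : ∀ e, e ≠ z → e ≠ y → τ e = σ e := fun e a b => by
        rw [hτ, Function.update_of_ne a, τ0o e b]
      obtain ⟨e, he, hc⟩ := seen_all ok num m3 τy yP cz
      rcases hc with hc | hw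
      · have ez : e ≠ z := fun q => by rw [q, hτ, Function.update_self] at hc; exact cyz hc
        rw [τo e ez he.ne'] at hc
        have q1 : e ≠ h := fun q => nadj (q ▸ he.symm)
        rw [σo e q1 ez] at hc
        by_cases q2 : e ∈ T.A h
        · exact X.step_ne hh hz hs (vis y z cn hy hz e q2 q1 he hc)
        · rw [st.out e q2] at hc
          exact cn.w1.2.2.1 e he ez hc
      · have nE := cn.w1.2.2.2 e hw.1 hw.2.1
        have hE := ok.Ecard e hw.1
        rcases hw.2.2 with q | ⟨x, x1, x2, q3, q4⟩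
        · have a := sC_erase (S := S) τ (S.gr e) e (c0 z)
          have b := sC_unc (S := S) σ y (S.gr e) cz
          have hs' : S.HS c0 e (c0 z) := by
            refine hs_of num m2 hw.1 cz ?_
            have := q.2
            rcases put_star ok τ0 z (c0 y) hw.1 (δ := c0 z) with k | k
            · rw [← hτ] at k
              rw [← hτ0] at b
              omega
            · exact absurd k.1.symm cyz
          have ip : ¬ S.IP T y e := fun ip => nE ⟨cyz.symm, Or.inl ⟨ip, hs'.pot⟩⟩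
          by_cases zE : z ∈ S.E e
          · obtain ⟨w', a1, _, a3⟩ := X.lock_star hh hz hs hw.1 zE hs' (fun t t1 t2 => by
              rw [(two_ends hE zE hw.2.1 yz.symm t1).resolve_left t2, st.out y hy]
              exact ⟨cyz, yh⟩)
            exact n3 ⟨w', a3, e, hw.1, a1, hw.2.1, zE⟩
          refine X.good_nb cn.r1 cn.g1 (X.nb_hs cn.r1 hw.1 hw.2.1 hs' (fun x x1 x2 => ?_))
          have e2 : x ≠ z := fun e => zE (e ▸ x1)
          have k := q.1 x x1 x2
          rw [τo x e2 x2] at k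
          have e1 : x ≠ h := fun e => k (e ▸ σh)
          obtain ⟨k1, k2⟩ := unt y e x cn.r1 ip x1 x2 e1
          rw [σo x e1 e2, k1] at k
          rwa [k2]
        · have hc' : S.HC c0 e (c0 z) (τ x) := by
            refine hc_of num m2 hw.1 cz q3 ?_
            have a := cC_erase (S := S) τ (S.gr e) e (c0 z) (τ x)
            have b := cC_unc (S := S) σ y (S.gr e) cz q3
            have k := put_cls_le ok τ0 z (c0 y) hw.1 (c0 z) (τ x)
            rw [← hτ] at k
            rw [← hτ0] at b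
            omega
          have ip : ¬ S.IP T y e := fun ip => nE ⟨cyz.symm, Or.inl ⟨ip, hc'.pot⟩⟩
          by_cases e2 : x = z
          · rw [e2, hτ, Function.update_self] at hc'
            rw [e2] at x1
            obtain ⟨w', a1, _, a3⟩ := X.lock_cls hh hz hs hw.1 x1 hc'
              ⟨z, x1, y, hw.2.1, yz.symm, st.out z hz, st.out y hy⟩
            exact n3 ⟨w', a3, e, hw.1, a1, hw.2.1, x1⟩
          rw [τo x e2 x2] at hc'
          by_cases e1 : x = h
          · rw [e1, σh] at hc'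
            exact nE ⟨cyz.symm, Or.inr (Or.inr hc')⟩
          · obtain ⟨k1, k2⟩ := unt y e x cn.r1 ip x1 x2 e1
            rw [σo x e1 e2, k1, ← k2] at hc'
            exact X.good_nb cn.r1 cn.g1 (X.nb_hc cn.r1 hw.1 hw.2.1 x1 x2 hc')
  exact fun h hh => main _ h hh rfl

theorem Ctx2.lem2_mv (X : Ctx2 S c0 T) {h z y : V} (hh : h ∈ T.R) (hz : z ∉ T.A h)
    (mv : S.Mv (T.col h) h z) (cl : S.Cn c0 T y z) (hy : y ∉ T.A h) : S.G.Adj h y := by
  rcases X.lem2 h hh z y hz (Or.inl mv) cl hy with q | q | ⟨w', q, _⟩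
  · exact q
  · exact absurd q.symm (cl.w2.2.2.1 h mv.1.1.symm (fun e => hy (e ▸ (X.st h hh).self)))
  · exact absurd q (X.mv_nb hh hz mv)

theorem Ctx2.Cl_clq (X : Ctx2 S c0 T) (z : V) : IsClq S.G (S.Cl2 c0 T z) := by
  intro y hy y' hy' hne
  rw [mem_Cl2] at hy hy'
  by_cases q : y' ∈ T.A y
  · exact (X.lem2_mv hy'.r1 hy'.g1.2.2.1 (X.good_mv hy'.r1 hy'.g1) hy
      (X.antisymm hy.r1 q hne.symm)).symm
  · exact X.lem2_mv hy.r1 hy.g1.2.2.1 (X.good_mv hy.r1 hy.g1) hy' q

theorem Ctx2.head_small (X : Ctx2 S c0 T) {z : V} (hd : S.Hd c0 T z) :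
    (S.Cl2 c0 T z).card ≤ 7 := by
  obtain ⟨h, hh, hz, ps⟩ := hd
  let C := (S.Cl2 c0 T z).filter (fun y => c0 y = c0 h)
  have hC : C.card ≤ 1 := by
    rw [card_le_one]
    intro a ha b hb
    by_contra hab
    obtain ⟨a1, a2⟩ := mem_filter.mp ha
    obtain ⟨b1, b2⟩ := mem_filter.mp hb
    rw [mem_Cl2] at a1 b1
    exact b1.w2.2.2.1 a a1.w2.1 hab (a2.trans b2.symm)
  let F := (S.Cl2 c0 T z).filter (fun y => ∃ w', S.NB (T.col h) h w' (c0 z) ∧
    ∃ w ∈ S.P, w' ∈ S.gr w ∧ y ∈ S.E w ∧ z ∈ S.E w)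
  have hF : F.card ≤ 1 := by
    rw [card_le_one]
    intro a ha b hb
    obtain ⟨a1, w1, a2, wa, a3, a4, a5, a6⟩ := mem_filter.mp ha
    obtain ⟨b1, w2, b2, wb, b3, b4, b5, b6⟩ := mem_filter.mp hb
    rw [mem_Cl2] at a1 b1
    have e : w1 = w2 := (X.step_nb hh hz (Or.inr ps) b2).2.2 w1 (X.step_nb hh hz (Or.inr ps) a2).2.1
    subst e
    have e2 : wb = wa := by
      by_contra q
      refine X.ok.Edisj wa a3 wb ?_ q z a6 b6
      rw [← X.ok.eqv wa a3 w1 a4, X.ok.eqv wb b3 w1 b4]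
      exact X.ok.mem wb b3
    subst e2
    exact ((two_ends (X.ok.Ecard wb b3) a6 b5 b1.w1.1.ne' a5).resolve_left a1.w1.1.ne)
  have hsub : S.Cl2 c0 T z ⊆
      (((S.Cl2 c0 T z).filter (fun y => y ∈ T.A h) ∪ C) ∪ F) ∪ S.NU (T.col h) h := by
    intro y hy
    by_contra hn
    simp only [mem_union, not_or, mem_filter, C, F, hy, true_and] at hn
    rw [mem_Cl2] at hy
    have adj := ((X.lem2 h hh z y hz (Or.inr ps) hy hn.1.1.1).resolve_right
      (fun q => q.elim hn.1.1.2 hn.1.2))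
    have mv := X.mv_of hh adj hy.g2.2.1 hn.2
    have adj2 := X.lem2_mv hh hn.1.1.1 mv hy.symm hz
    obtain ⟨w, w1, w2, _⟩ := ps
    have := w2.2 z ⟨adj2, w2.1.2.1, Or.inl rfl⟩
    exact hy.g1.2.1 (this ▸ w1)
  have := card_le_card hsub
  have := card_union_le (((S.Cl2 c0 T z).filter (fun y => y ∈ T.A h) ∪ C) ∪ F) (S.NU (T.col h) h)
  have := card_union_le ((S.Cl2 c0 T z).filter (fun y => y ∈ T.A h) ∪ C) F
  have := card_union_le ((S.Cl2 c0 T z).filter (fun y => y ∈ T.A h)) C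
  have := X.clq_anc3 (X.Cl_clq z) hh
  have := X.NU_two hh
  omega

theorem Ctx2.attach (X : Ctx2 S c0 T) {k : ℕ} {h z : V} (hh : h ∈ T.R) (hz : z ∉ T.A h)
    (mv : S.Mv (T.col h) h z) (big : k ≤ (S.Cl2 c0 T z).card) :
    h ∈ Jset S.G (k - 3) z ∧ z ∈ Jset S.G (k - 3) h := by
  have k := card_filter_add_card_filter_not (s := S.Cl2 c0 T z) (fun y => y ∈ T.A h)
  have := X.clq_anc3 (X.Cl_clq z) hh
  have hQ : IsClq S.G ((S.Cl2 c0 T z).filter (fun y => ¬ y ∈ T.A h)) :=
    fun a ha b hb => X.Cl_clq z a (mem_filter.mp ha).1 b (mem_filter.mp hb).1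
  have adj : ∀ a ∈ (S.Cl2 c0 T z).filter (fun y => ¬ y ∈ T.A h), S.G.Adj h a ∧ S.G.Adj z a := by
    intro a ha
    obtain ⟨a1, a2⟩ := mem_filter.mp ha
    rw [mem_Cl2] at a1
    exact ⟨X.lem2_mv hh hz mv a1 a2, a1.w2.1⟩
  exact ⟨mem_filter.mpr ⟨mem_nb.mpr mv.1.1.symm, _, hQ, by omega, adj⟩,
    mem_filter.mpr ⟨mem_nb.mpr mv.1.1, _, hQ, by omega, fun a ha => (adj a ha).symm⟩⟩

theorem Ctx2.root_small (X : Ctx2 S c0 T) : S.Cl2 c0 T T.r = ∅ := by
  rw [eq_empty_iff_forall_notMem]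
  intro y hy
  exact X.pt.rhole (mem_Cl2.mp hy).w1.2.1

theorem Ctx2.par_mv (X : Ctx2 S c0 T) {z : V} (hz : z ∈ T.R) (hr : z ≠ T.r)
    (hd : ¬ S.Hd c0 T z) : S.Mv (T.col (T.par z)) (T.par z) z :=
  (X.pt.step z hz hr).resolve_right (fun q => hd ⟨_, X.pt.parD z hz hr, X.pt.notA z hz hr, q⟩)

theorem Ctx2.big_mv (X : Ctx2 S c0 T) {z : V} (hz : z ∈ T.R) (big : 8 ≤ (S.Cl2 c0 T z).card) :
    z ≠ T.r ∧ ¬ S.Hd c0 T z ∧ S.Mv (T.col (T.par z)) (T.par z) z := by
  have hr : z ≠ T.r := fun e => by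
    rw [e, X.root_small] at big
    simp at big
  have hd : ¬ S.Hd c0 T z := fun q => by
    have := X.head_small q
    omega
  exact ⟨hr, hd, X.par_mv hz hr hd⟩

end Sys

end Pool.Agent.Lib.MP_12eaff_co.BK3
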