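import Mathlib
import Pool.Agent.Lib.MP_12eaff_co.BK.Stat2

set_option autoImplicit false

namespace Pool.Agent.Lib.MP_12eaff_co.BK3

open Finset Pool.Agent.Lib.MP_12eaff_co.BK Pool.Agent.Lib.MP_12eaff_co.BK.RS
open scoped Classical

variable {V : Type} [Fintype V] {G : SimpleGraph V} {D : ℕ}

theorem lone3 (h : MC G D) (ts : TSst G D) (ra : RAst G D) {t : ℕ} (rg : RGst G D t)
    (ht : 18 ≤ t) (hD : 14 ≤ D) {K : Finset V} (hK : Tight G D t K) {x1 x2 z : V}
    (h1 : x1 ∈ Uni G K) (h2 : x2 ∈ Uni G K) (n : x1 ≠ x2) (a1 : G.Adj z x1) (a2 : G.Adj z x2)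
    (hz : z ∉ K) : ∃ y, G.Adj x1 y ∧ y ∉ K ∧ z ≠ y := by
  by_contra k
  have m1 := (sel_mem_uni.mp h1).1
  have m2 := (sel_mem_uni.mp h2).1
  obtain ⟨w, w1, -, w2⟩ := pick rg hK {z} ∅ (fun y hy => mem_singleton.mp hy ▸ hz)
    (by rw [card_singleton, card_empty]; omega)
  have nz := w2 z (mem_singleton_self _)
  have mw := (sel_mem_uni.mp w1).1
  have o := sel_out h.deg hK.1 w1
  obtain ⟨c, c1, c2, c3, -⟩ := col_stars h ts ra hD K (y := x1) (nb G w \ K) ∅ m1 a1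
    (o.trans (two_le m1 m2 n a1 a2)) (by simp) o (by simp)
    (fun a ha => ⟨w, mw, (mem_nb.mp (mem_sdiff.mp ha).1).symm⟩) (by simp) a1.ne
    (fun q => nz (mem_nb.mp (mem_sdiff.mp q).1).symm) (fun q => (mem_sdiff.mp q).2 m1) (by simp)
    (by simp) (by simp)
  have un : ∀ v ∈ K, ¬ c v < D := fun v hv k => (c2 v).mp k hv
  have cz := (c2 z).mpr hz
  refine finw h c1 (fun v hv => not_not.mp (mt (c2 v).mpr hv)) h1 h2 mw n
    (fun e => nz (e ▸ a1)) (fun e => nz (e ▸ a2)) (un _ m1) (un _ m2) (un _ mw) a1 a2 cz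
    (fun e he q => ?_) ∅ (fun b hb => absurd hb (notMem_empty _)) ?_
  · have eK := (c2 e).mp (q ▸ cz)
    exact c3 hz e (mem_sdiff.mpr ⟨mem_nb.mpr he, eK⟩) eK q.symm
  · have s : nb G x1 \ ∅ ⊆ insert z (K.erase x1) := fun v hv => by
      have a := mem_nb.mp (mem_sdiff.mp hv).1
      by_cases q : v ∈ K
      · exact mem_insert_of_mem (mem_erase.mpr ⟨a.ne', q⟩)
      · rw [show v = z from by_contra fun e => k ⟨v, a, q, fun e' => e e'.symm⟩]
        exact mem_insert_self _ _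
    have := card_le_card s
    have := card_insert_le z (K.erase x1)
    have := card_erase_of_mem m1
    have := hK.1
    omega

theorem rs3 (h : MC G D) (ts : TSst G D) (ra : RAst G D) {t : ℕ} (rg : RGst G D t)
    (ht : 18 ≤ t) (hD : 14 ≤ D) : RSst G D t := by
  intro K z hK hz
  by_contra hT
  obtain ⟨x1, h1, x2, h2, n⟩ := (one_lt_card (s := (Uni G K).filter (G.Adj z))).mp (by omega)
  obtain ⟨h1, a1⟩ := mem_filter.mp h1
  obtain ⟨h2, a2⟩ := mem_filter.mp h2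
  obtain ⟨y1, b1, k1, z1⟩ := lone3 h ts ra rg (by omega) (by omega) hK h1 h2 n a1 a2 hz
  obtain ⟨y2, b2, k2, z2⟩ := lone3 h ts ra rg (by omega) (by omega) hK h2 h1 n.symm a2 a1 hz
  have m1 := (sel_mem_uni.mp h1).1
  have m2 := (sel_mem_uni.mp h2).1
  obtain ⟨w, w1, -, w2⟩ := pick rg hK {z, y1, y2} ∅ (fun y hy => by
      simp only [mem_insert, mem_singleton] at hy
      rcases hy with rfl | rfl | rfl <;> assumption)
    (by have := card_le_three (a := z) (b := y1) (c := y2); rw [card_empty]; omega)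
  have nz := w2 z (by simp)
  have ny1 := w2 y1 (by simp)
  have ny2 := w2 y2 (by simp)
  have mw := (sel_mem_uni.mp w1).1
  have o := sel_out h.deg hK.1 w1
  have n1 : w ≠ x1 := fun e => nz (e ▸ a1)
  have n2 : w ≠ x2 := fun e => nz (e ▸ a2)
  have me : ∀ {u a}, a ∈ nb G u \ K → G.Adj a u := fun q => (mem_nb.mp (mem_sdiff.mp q).1).symm
  by_cases e : y1 = y2
  · subst e
    obtain ⟨m, v1, v3, v2⟩ := pick rg hK (insert z (insert y1 (nb G w \ K))) {w} (fun y hy => by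
        simp only [mem_insert] at hy
        rcases hy with rfl | rfl | hy
        · exact hz
        · exact k1
        · exact (mem_sdiff.mp hy).2)
      (by
        have := card_insert_le z (insert y1 (nb G w \ K))
        have := card_insert_le y1 (nb G w \ K)
        rw [card_singleton]
        omega)
    have mz := v2 z (mem_insert_self _ _)
    have mm := (sel_mem_uni.mp v1).1
    have o' := sel_out h.deg hK.1 v1
    obtain ⟨c, c1, c2, c3, c4⟩ := col_stars h ts ra (by omega) K (y := y1) (nb G w \ K)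
      (nb G m \ K) m1 a1 (o.trans (two_le m1 m2 n a1 a2))
      (o'.trans (two_le m1 m2 n b1.symm b2.symm)) o o' (fun a ha => ⟨w, mw, me ha⟩)
      (fun a ha => ⟨m, mm, me ha⟩) z1 (fun q => nz (me q)) (fun q => ny1 (me q))
      (fun q => mz (me q)) (fun q => v2 y1 (by simp) (me q))
      fun a ha q => v2 a (mem_insert_of_mem (mem_insert_of_mem ha)) (me q)
    obtain ⟨e, e1, e2, e3⟩ := (fit h c1 c2 h1 h2 mw n n1 n2 a1 a2 hz
      (fun e he q => c3 hz e (mem_sdiff.mpr ⟨mem_nb.mpr he, q⟩) q) b1 k1 z1).2 m mm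
      (fun e => mz (e ▸ a1)) (fun e => mz (e ▸ a2)) fun e => v3 (mem_singleton.mpr e)
    exact c4 k1 e (mem_sdiff.mpr ⟨mem_nb.mpr e1, e2⟩) e2 e3.symm
  obtain ⟨c, c1, c2, c3, c4⟩ := col_stars h ts ra (by omega) K (y := y1) (nb G w \ K) {y2} m1 a1
    (o.trans (two_le m1 m2 n a1 a2))
    (by rw [card_singleton]; exact card_pos.mpr ⟨x1, mem_inter.mpr ⟨mem_nb.mpr b1.symm, m1⟩⟩) o
    (by simp) (fun a ha => ⟨w, mw, me ha⟩) (fun a ha => ⟨x2, m2, mem_singleton.mp ha ▸ b2.symm⟩)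
    z1 (fun q => nz (me q)) (fun q => ny1 (me q)) (fun q => z2 (mem_singleton.mp q))
    (fun q => e (mem_singleton.mp q)) fun a ha q => ny2 (mem_singleton.mp q ▸ me ha)
  have c12 := c4 k1 y2 (mem_singleton_self _) k2
  have fw : ∀ e, G.Adj w e → e ∉ K → c z ≠ c e := fun e he q =>
    c3 hz e (mem_sdiff.mpr ⟨mem_nb.mpr he, q⟩) q
  obtain ⟨f1, g1⟩ := fit h c1 c2 h1 h2 mw n n1 n2 a1 a2 hz fw b1 k1 z1
  obtain ⟨f2, g2⟩ := fit h c1 c2 h2 h1 mw n.symm n2 n1 a2 a1 hz fw b2 k2 z2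
  obtain ⟨t1, s1, s2, -⟩ := pick rg hK ∅ {x1, x2, w} (by simp)
    (by have := card_le_three (a := x1) (b := x2) (c := w); rw [card_empty]; omega)
  obtain ⟨t2, r1, r2, -⟩ := pick rg hK ∅ {t1, x1, x2, w} (by simp)
    (by have := card_le_four (a := t1) (b := x1) (c := x2) (d := w); rw [card_empty]; omega)
  simp only [mem_insert, mem_singleton, not_or] at s2 r2
  have cy1 := (c2 y1).mpr k1
  have cy2 := (c2 y2).mpr k2
  have p1 : PCol G D (Function.update c x1 (c y2)) := c1.put fun e he q => by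
    rcases ends h hK.1 h1 a1.symm hz b1 k1 z1 he ((c2 e).mp (q ▸ cy2)) with k | k
    · exact f2 (k ▸ q)
    · exact c12 (k ▸ q)
  have p2 : PCol G D (Function.update (Function.update c x1 (c y2)) x2 (c y1)) :=
    p1.put fun e he q => by
      by_cases k : e = x1
      · rw [k, Function.update_self] at q
        exact c12 q.symm
      · rw [Function.update_of_ne k] at q
        rcases ends h hK.1 h2 a2.symm hz b2 k2 z2 he ((c2 e).mp (q ▸ cy1)) with k | k
        · exact f1 (k ▸ q)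
        · exact c12 (k ▸ q).symm
  obtain ⟨c', e'⟩ : ∃ c', c' = Function.update (Function.update c x1 (c y2)) x2 (c y1) := ⟨_, rfl⟩
  have d2 : c' x2 = c y1 := by rw [e', Function.update_self]
  have d1 : c' x1 = c y2 := by rw [e', Function.update_of_ne n, Function.update_self]
  have d0 : ∀ v, v ≠ x1 → v ≠ x2 → c' v = c v := fun v a b => by
    rw [e', Function.update_of_ne b, Function.update_of_ne a]
  have d3 : ∀ v, v ∉ K → c' v = c v := fun v a =>
    d0 v (fun k => a (k ▸ m1)) fun k => a (k ▸ m2)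
  rw [← e'] at p2
  have ms := (sel_mem_uni.mp s1).1
  have mr := (sel_mem_uni.mp r1).1
  obtain ⟨e0, i1, i2, i3⟩ := g1 t1 ms s2.1 s2.2.1 s2.2.2
  obtain ⟨e1, j1, j2, j3⟩ := g1 t2 mr r2.2.1 r2.2.2.1 r2.2.2.2
  obtain ⟨e2, l1, l2, l3⟩ := g2 t2 mr r2.2.2.1 r2.2.1 r2.2.2.2
  have nm : ∀ v, v ∉ K → v ∉ ({x1, x2} : Finset V) := fun v a k =>
    (mem_insert.mp k).elim (fun k => a (k ▸ m1)) fun k => a (mem_singleton.mp k ▸ m2)
  refine fin h p2 (fun v hv => ?_) s1 r1 r2.1 ?_ ?_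
    ((sel_mem_uni.mp s1).2 x2 m2 (Ne.symm s2.2.1)) i1 (fun k => i2 (k ▸ m2)) (d2 ▸ cy1)
    (by rw [d3 _ i2, d2, i3]) {x1, x2} (fun b hb => ?_) ?_
  · by_contra k
    exact hv (d3 v k ▸ (c2 v).mpr k)
  · rw [d0 _ s2.1 s2.2.1]
    exact fun k => (c2 _).mp k ms
  · rw [d0 _ r2.2.1 r2.2.2.1]
    exact fun k => (c2 _).mp k mr
  · rcases mem_insert.mp hb with k | k
    · rw [k, d1]
      exact ⟨cy2, e2, l1, nm _ l2, by rw [d3 _ l2, l3]⟩
    · rw [mem_singleton.mp k, d2]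
      exact ⟨cy1, e1, j1, nm _ j2, by rw [d3 _ j2, j3]⟩
  · have a := RA.two h t2 {x1, x2} (nb G t2 \ {x1, x2}) disjoint_sdiff (fun a ha =>
      (mem_insert.mp ha).elim (fun k => k ▸ (sel_mem_uni.mp r1).2 x1 m1 (Ne.symm r2.2.1))
        fun k => mem_singleton.mp k ▸ (sel_mem_uni.mp r1).2 x2 m2 (Ne.symm r2.2.2.1))
      fun _ a => mem_nb.mp (mem_sdiff.mp a).1
    rw [card_pair n] at a
    omega

end Pool.Agent.Lib.MP_12eaff_co.BK3
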