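import Mathlib
import Pool.Agent.Lib.MP_12eaff_co.BK3.D3
import Pool.Agent.Lib.MP_12eaff_co.BK.Stat2

set_option autoImplicit false

namespace Pool.Agent.Lib.MP_12eaff_co.BK3

open Finset Pool.Agent.Lib.MP_12eaff_co.BK
open scoped Classical

variable {V : Type} [Fintype V]

omit [Fintype V] in
/-- The three types of tight sets. -/
theorem sel5_type (U : Finset V) (r : V → Prop) : ∃ (F Z : Finset V) (q L : ℕ), 21 ≤ U.card →
    (∀ u ∈ F, u ∈ U ∧ ¬ r u) ∧ Z ⊆ U ∧ Disjoint F Z ∧ q * 4 ≤ Z.card ∧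
      ((F.card = 8 ∧ q = 3 ∧ L = 7) ∨ ((∀ u ∈ Z, r u) ∧
        ((F.card = 6 ∧ q = 3 ∧ L = 5) ∨ (F.card = 0 ∧ q = 4 ∧ L = 7)))) := by
  have e := card_filter_add_card_filter_not (s := U) r
  by_cases h8 : 8 ≤ (U.filter fun u => ¬ r u).card
  · obtain ⟨F, h1, h2⟩ := exists_subset_card_eq h8
    have := le_card_sdiff F U
    exact ⟨F, U \ F, 3, 7, fun h => ⟨fun u hu => mem_filter.1 (h1 hu), sdiff_subset, disjoint_sdiff,
      by omega, Or.inl ⟨h2, rfl, rfl⟩⟩⟩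
  by_cases h6 : 6 ≤ (U.filter fun u => ¬ r u).card
  · obtain ⟨F, h1, h2⟩ := exists_subset_card_eq h6
    exact ⟨F, U.filter r, 3, 5, fun h => ⟨fun u hu => mem_filter.1 (h1 hu), filter_subset _ _,
      disjoint_left.2 fun u a b => (mem_filter.1 (h1 a)).2 (mem_filter.1 b).2, by omega,
      Or.inr ⟨fun u hu => (mem_filter.1 hu).2, Or.inl ⟨h2, rfl, rfl⟩⟩⟩⟩
  · exact ⟨∅, U.filter r, 4, 7, fun h => ⟨by simp, filter_subset _ _, disjoint_empty_left _, by omega,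
      Or.inr ⟨fun u hu => (mem_filter.1 hu).2, Or.inr ⟨rfl, rfl, rfl⟩⟩⟩⟩

theorem sel5_J {G G' : SimpleGraph V} (h : ∀ u v, G'.Adj u v → G.Adj u v) (m : ℕ) (z : V) :
    (Jset G' m z).card ≤ (Jset G m z).card := card_le_card fun u hu => by
  obtain ⟨u1, A, u2, u3, u4⟩ := mem_filter.1 hu
  exact mem_filter.2 ⟨mem_nb.2 (h _ _ (mem_nb.1 u1)), A, fun a x b y e => h _ _ (u2 a x b y e), u3,
    fun a x => ⟨h _ _ (u4 a x).1, h _ _ (u4 a x).2⟩⟩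

/-- Selection of the invisible vertices with three types of groups. -/
theorem sel5 {G : SimpleGraph V} {D k t : ℕ} (h : MC G D) (rs : RSst G D t) (dj : DJst G D t)
    (p4 : P4st3 G D k t) (ht : 21 ≤ t) (hk : 1 ≤ k)
    (ext : ∀ (S : Sys V) Del Kf, ExtSt G S Del Kf) : SelSt (V := V) D k := by
  have ne : Nonempty V := by
    by_contra q
    exact h.ncol ⟨fun _ => 0, fun v => absurd ⟨v⟩ q, fun v => absurd ⟨v⟩ q⟩
  obtain ⟨Kf, hKf⟩ : ∃ Kf : V → Finset V, ∀ K v, Tight G D t K → v ∈ K → Kf v = K := by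
    refine ⟨fun v => if h : ∃ K, Tight G D t K ∧ v ∈ K then h.choose else ∅,
      fun K v hK hv => ?_⟩
    have e : ∃ K, Tight G D t K ∧ v ∈ K := ⟨K, hK, hv⟩
    simp only [dif_pos e]
    exact dj _ _ v e.choose_spec.1 hK e.choose_spec.2 hv
  let un : V → Prop := fun u => Tight G D t (Kf u) ∧ u ∈ Uni G (Kf u)
  have um : ∀ {u}, un u → u ∈ Kf u := fun h => (sel_mem_uni.1 h.2).1
  have uo : ∀ {u}, un u → (nb G u \ Kf u).card ≤ 2 := fun hu => sel_out h.deg hu.1.1 hu.2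
  have uk : ∀ {K u}, Tight G D t K → u ∈ Uni G K → un u := fun {K u} a b => by
    have e := hKf K u a (sel_mem_uni.1 b).1
    exact ⟨e ▸ a, e ▸ b⟩
  let H : V → V → Prop := fun u v => un u ∧ un v ∧ G.Adj u v ∧ v ∉ Kf u
  have Hs : ∀ u v, H u v → H v u := fun u v ⟨a, b, c, d⟩ =>
    ⟨b, a, c.symm, fun x => d (hKf _ _ b.1 x ▸ um b)⟩
  have Hd : ∀ v, ∃ N : Finset V, N.card ≤ 2 ∧ ∀ u, H v u → u ∈ N := fun v => by
    by_cases hv : un v
    · exact ⟨_, uo hv, fun u hu => mem_sdiff.2 ⟨mem_nb.2 hu.2.2.1, hu.2.2.2⟩⟩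
    · exact ⟨∅, by simp, fun u hu => absurd hu.1 hv⟩
  choose F Z q L ty using fun K => sel5_type (Uni G K) fun u => ∃ v, H u v
  replace ty := fun K (hK : Tight G D t K) => ty K (ht.trans hK.2)
  have ex : ∀ K : {K : Finset V // Tight G D t K}, Nonempty (Fin (q K.1) × Fin 4 ↪ Z K.1) := fun K =>
    Function.Embedding.nonempty_of_card_le (by simpa using (ty K.1 K.2).2.2.2.1)
  let f := fun K => (ex K).some
  let Pt : (Σ K : {K : Finset V // Tight G D t K}, Fin (q K.1)) → Finset V :=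
    fun x => univ.image fun j : Fin 4 => (f x.1 (x.2, j) : V)
  have Pu : ∀ x, ∀ v ∈ Pt x, v ∈ Z x.1.1 := fun x v hv => by
    obtain ⟨j, -, rfl⟩ := mem_image.1 hv
    exact (f x.1 (x.2, j)).2
  have Zm : ∀ K, Tight G D t K → ∀ v ∈ Z K, v ∈ K := fun K a v b =>
    (sel_mem_uni.1 ((ty K a).2.1 b)).1
  have Fm : ∀ K, Tight G D t K → ∀ v ∈ F K, v ∈ K := fun K a v b =>
    (sel_mem_uni.1 ((ty K a).1 v b).1).1
  have Pd : ∀ x y, x ≠ y → Disjoint (Pt x) (Pt y) := by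
    rintro ⟨K, i⟩ ⟨K', i'⟩ hxy
    refine disjoint_left.2 fun v h1 h2 => hxy ?_
    obtain rfl : K = K' := Subtype.ext (dj _ _ v K.2 K'.2 (Zm _ K.2 v (Pu _ v h1))
      (Zm _ K'.2 v (Pu _ v h2)))
    obtain ⟨j, -, a⟩ := mem_image.1 h1
    obtain ⟨j', -, b⟩ := mem_image.1 h2
    have := (f K).injective (Subtype.ext (a.trans b.symm))
    exact congrArg _ (Prod.ext_iff.1 this).1
  obtain ⟨g, g1, g2⟩ := hax_ne _ V univ Pt H 2 ne Hs Hd (fun x _ y _ => Pd x y) (by omega)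
      fun x _ => by
    rw [card_image_of_injective _ fun j j' e =>
      (Prod.ext_iff.1 ((f x.1).injective (Subtype.ext e))).2]
    simp
  have gu : ∀ x, g x ∈ Z x.1.1 := fun x => Pu x _ (g1 x (mem_univ _))
  have gi : Function.Injective g := fun x y e => by_contra fun n =>
    disjoint_left.1 (Pd x y n) (g1 x (mem_univ _)) (e ▸ g1 y (mem_univ _))
  obtain ⟨P, hP⟩ : ∃ P : Finset V, ∀ w, w ∈ P ↔ (∃ x, g x = w) ∨ ∃ K, Tight G D t K ∧ w ∈ F K :=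
    ⟨univ.filter _, fun w => mem_filter_univ w⟩
  have pu : ∀ w ∈ P, un w := fun w hw => by
    rcases (hP w).1 hw with ⟨x, rfl⟩ | ⟨K, a, b⟩
    exacts [uk x.1.2 ((ty _ x.1.2).2.1 (gu x)), uk a ((ty K a).1 w b).1]
  have nH : ∀ w ∈ P, ∀ w' ∈ P, ¬ H w w' := fun w hw w' hw' n => by
    rcases (hP w).1 hw with ⟨x, rfl⟩ | ⟨K, a, b⟩
    · rcases (hP w').1 hw' with ⟨y, rfl⟩ | ⟨K, a, b⟩
      · exact g2 x (mem_univ _) y (mem_univ _) (fun e => n.2.2.1.ne (congrArg g e)) n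
      · exact ((ty K a).1 w' b).2 ⟨_, Hs _ _ n⟩
    · exact ((ty K a).1 w b).2 ⟨_, n⟩
  have pc : ∀ K, Tight G D t K → ∃ C ⊆ Z K, C.card = q K ∧ P.filter (· ∈ K) = F K ∪ C := fun K hK => by
    refine ⟨univ.image fun i : Fin (q K) => g ⟨⟨K, hK⟩, i⟩, fun w hw => ?_, ?_, ?_⟩
    · obtain ⟨i, -, rfl⟩ := mem_image.1 hw
      exact gu ⟨⟨K, hK⟩, i⟩
    · rw [card_image_of_injective _ fun i j e => by simpa using gi e]
      simp
    · ext w
      simp only [hP, mem_filter, mem_union, mem_image, mem_univ, true_and]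
      constructor
      · rintro ⟨⟨⟨K', i⟩, rfl⟩ | ⟨K', a, b⟩, hw⟩
        · obtain rfl : K' = ⟨K, hK⟩ := Subtype.ext (dj _ _ _ K'.2 hK (Zm _ K'.2 _ (gu ⟨K', i⟩)) hw)
          exact Or.inr ⟨i, rfl⟩
        · exact Or.inl (dj _ _ _ a hK (Fm _ a _ b) hw ▸ b)
      · rintro (a | ⟨i, rfl⟩)
        exacts [⟨Or.inr ⟨K, hK, a⟩, Fm K hK w a⟩, ⟨Or.inl ⟨_, rfl⟩, Zm K hK _ (gu ⟨⟨K, hK⟩, i⟩)⟩]
  obtain ⟨Del, hD⟩ : ∃ Del : Finset V, ∀ a, a ∈ Del ↔ a ∉ P ∧ ∃ w ∈ P, H w a :=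
    ⟨univ.filter _, fun w => mem_filter_univ w⟩
  have pD : ∀ w ∈ P, w ∉ Del := fun w a b => ((hD w).1 b).1 a
  let S : Sys V := ⟨⟨fun u v => G.Adj u v ∧ u ∉ Del ∧ v ∉ Del, ⟨fun _ _ a => ⟨a.1.symm, a.2.symm⟩⟩,
      ⟨fun _ a => a.1.ne rfl⟩⟩, D, fun w => (P.filter (· ∈ Kf w)).card, fun w => L (Kf w), P,
    fun w => P.filter (· ∈ Kf w), fun w => (nb G w \ Kf w) \ Del⟩
  have mem : ∀ w ∈ S.P, w ∈ S.gr w := fun w hw => mem_filter.2 ⟨hw, um (pu w hw)⟩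
  have sub : ∀ w ∈ S.P, S.gr w ⊆ S.P := fun w _ => filter_subset _ _
  have keq : ∀ w ∈ S.P, ∀ w' ∈ S.gr w, Kf w' = Kf w := fun w hw w' hw' =>
    hKf _ _ (pu w hw).1 (mem_filter.1 hw').2
  have eqv : ∀ w ∈ S.P, ∀ w' ∈ S.gr w, S.gr w' = S.gr w := fun w hw w' hw' => by
    simp only [S, keq w hw w' hw']
  have Ec : ∀ w ∈ S.P, (S.E w).card ≤ 2 := fun w hw => (card_le_card sdiff_subset).trans (uo (pu w hw))
  have EP : ∀ w ∈ S.P, ∀ x ∈ nb G w \ Kf w, x ∉ S.P := fun w hw x hx hx' =>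
    nH w hw x hx' ⟨pu w hw, pu x hx', mem_nb.1 (mem_sdiff.1 hx).1, (mem_sdiff.1 hx).2⟩
  have Ed : ∀ w ∈ S.P, ∀ w' ∈ S.gr w, w' ≠ w → ∀ x ∈ nb G w \ Kf w, x ∉ nb G w' \ Kf w' :=
    fun w hw w' hw' n x hx hx' => by
    refine n (card_le_one.1 (rs _ x (pu w hw).1 (mem_sdiff.1 hx).2) _ (mem_filter.2 ⟨?_, ?_⟩) _
      (mem_filter.2 ⟨(pu w hw).2, (mem_nb.1 (mem_sdiff.1 hx).1).symm⟩))
    · exact keq w hw w' hw' ▸ (pu w' (sub w hw hw')).2
    · exact (mem_nb.1 (mem_sdiff.1 hx').1).symm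
  have E1 : ∀ w ∈ P, (∃ v, H w v) → ¬ 2 ≤ (S.E w).card := fun w hw ⟨a, ha⟩ n => by
    have a1 : a ∈ nb G w \ Kf w := mem_sdiff.2 ⟨mem_nb.2 ha.2.2.1, ha.2.2.2⟩
    have := card_lt_card (show S.E w ⊂ nb G w \ Kf w from (ssubset_iff_of_subset sdiff_subset).2
      ⟨a, a1, fun e => (mem_sdiff.1 e).2 ((hD a).2 ⟨EP w hw a a1, w, hw, ha⟩)⟩)
    have := uo (pu w hw)
    omega
  have num : ∀ K, Tight G D t K → ((P.filter (· ∈ K)).card = 11 ∧ L K = 7) ∨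
      ((P.filter (· ∈ K)).card = 9 ∧ L K = 5 ∧ S.dE (P.filter (· ∈ K)) ≤ 6) ∨
      ((P.filter (· ∈ K)).card = 4 ∧ L K = 7 ∧ S.dE (P.filter (· ∈ K)) ≤ 0) := fun K hK => by
    obtain ⟨C, c1, c2, c3⟩ := pc K hK
    obtain ⟨-, -, t1, -, t2⟩ := ty K hK
    have c4 := c3 ▸ card_union_of_disjoint (t1.mono_right c1)
    rcases t2 with t2 | ⟨t2, t3⟩
    · omega
    · have : S.dE (P.filter (· ∈ K)) ≤ (F K).card := card_le_card fun a ha => by
        obtain ⟨a1, a2⟩ := mem_filter.1 ha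
        exact (mem_union.1 (c3 ▸ a1)).resolve_right fun e => E1 a (mem_filter.1 a1).1 (t2 a (c1 e)) a2
      omega
  have nw : ∀ w ∈ S.P, (S.p w = 11 ∧ S.L w = 7) ∨ (S.p w = 9 ∧ S.L w = 5 ∧ S.dE (S.gr w) ≤ 6) ∨
      (S.p w = 4 ∧ S.L w = 7 ∧ S.dE (S.gr w) ≤ 0) := fun w hw => num _ (pu w hw).1
  refine ⟨S, rfl, ⟨fun v => (card_le_card fun x hx => mem_nb.2 ((mem_nb (G := S.G)).1 hx).1).trans (h.deg v), mem, sub,
    eqv, fun _ _ => rfl, fun w hw w' hw' => congrArg L (keq w hw w' hw'),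
    fun w hw x hx => ⟨mem_nb.1 (mem_sdiff.1 (mem_sdiff.1 hx).1).1, pD w hw, (mem_sdiff.1 hx).2⟩, Ec,
    fun w hw x hx => EP w hw x (mem_sdiff.1 hx).1,
    fun w hw w' hw' n x hx hx' => Ed w hw w' hw' n x (mem_sdiff.1 hx).1 (mem_sdiff.1 hx').1,
    fun c hc => by_contra fun n => ?_⟩, ⟨fun w hw => by have := nw w hw; omega,
    fun w hw => by have := nw w hw; omega, fun w hw => by have := nw w hw; omega, fun w hw => ?_⟩,
    fun z hz => ?_⟩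
  · refine h.ncol (ext S Del Kf h.deg (fun _ _ => Iff.rfl) mem sub eqv (fun _ _ => rfl)
      (fun w hw => by have := nw w hw; omega) (fun _ _ => rfl) (fun w hw => uo (pu w hw)) EP Ed
      (fun w hw => (pu w hw).1.1) (fun w _ x hx => (mem_filter.1 hx).2) keq
      (fun w _ x h1 h2 => mem_filter.2 ⟨h2, h1⟩) (fun a ha => ?_) c hc (fun w hw γ a ζ b => ?_)
      fun v hv => by_contra fun e => n ⟨v, hv, e⟩)
    · obtain ⟨a1, w, -, -, a2, -⟩ := (hD a).1 ha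
      obtain ⟨u, hu⟩ := card_pos.1 (show 0 < (P.filter (· ∈ Kf a)).card by have := num _ a2.1; omega)
      obtain ⟨u1, u2⟩ := mem_filter.1 hu
      exact ⟨a1, u, u1, (hKf _ u a2.1 u2).symm ▸ ⟨um a2, uo a2⟩⟩
    · have c1 := hc.cl w hw γ a ζ b
      have c2 : S.cC c (S.gr w) γ ζ ≤ S.dE (S.gr w) := card_le_card fun u hu => by
        obtain ⟨u1, x, x1, y, y1, e, -⟩ := mem_filter.1 hu
        exact mem_filter.2 ⟨u1, one_lt_card.2 ⟨x, x1, y, y1, e⟩⟩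
      have := nw w hw
      omega
  · have c1 : ∑ a ∈ S.gr w, (S.E a).card ≤ S.p w + S.dE (S.gr w) := by
      change _ ≤ (S.gr w).card + _
      rw [card_eq_sum_ones (S.gr w), Sys.dE, card_filter _ (S.gr w), ← sum_add_distrib]
      refine sum_le_sum fun a ha => ?_
      have := Ec a (sub w hw ha)
      split_ifs <;> omega
    have c2 : S.dE (S.gr w) ≤ S.p w := card_filter_le _ _
    have := nw w hw
    omega
  · by_cases hd : z ∈ Del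
    · refine Or.inr fun Q _ q2 q3 => ?_
      obtain ⟨a, ha⟩ := card_pos.1 (show 0 < Q.card by omega)
      exact absurd hd (q3 a ha).2.1
    by_cases hz' : ∃ K, Tight G D t K ∧ z ∈ K
    · obtain ⟨K, hK, hzK⟩ := hz'
      refine Or.inl ⟨P.filter (· ∈ K), filter_subset _ _, by have := num K hK; omega, fun w hw => ?_⟩
      obtain ⟨w1, w2⟩ := mem_filter.1 hw
      have e := hKf K w hK w2
      exact ⟨⟨((sel_mem_uni.1 (pu w w1).2).2 z (e ▸ hzK) fun n => hz (n ▸ w1)).symm, hd, pD w w1⟩,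
        fun n => (mem_sdiff.1 (mem_sdiff.1 n).1).2 (e ▸ hzK)⟩
    · refine Or.inr fun Q q1 q2 q3 => by_contra fun n =>
        hz' (p4 z Q (fun a x b y e => (q1 a x b y e).1) q2 (fun a x => (q3 a x).1) ?_)
      have := sel5_J (G := G) (G' := S.G) (fun _ _ a => a.1) (k - 3) z
      change ¬ _ ≤ D at n
      omega

end Pool.Agent.Lib.MP_12eaff_co.BK3
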